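import Pool.Agent.H820R3.AC.Defs
import Pool.Agent.H746R3.Inv.Global
import Pool.Agent.H746R3.Inv.Count

/-!
# Auxiliary definitions
-/

namespace Pool.Agent.H820R3.AC

open H746R3.Inv Finset

/-- the number of subsets with at most `r` elements of a set with `n` elements -/
def ball (n r : ℕ) : ℕ := ∑ i ∈ range (r + 1), n.choose i

/-- `f` has probabilistic polynomials over `ZMod p` of degree at most `D` with error at most
`e / p ^ ℓ` at every point -/
def PP (p : ℕ) [Fact p.Prime] {V : Type} [DecidableEq V] (D ℓ e : ℕ) (f : (V → Bool) → Bool) :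
    Prop :=
  ∃ (Ω : Type) (_ : Fintype Ω) (P : Ω → (V → Bool) → ZMod p), 0 < Fintype.card Ω ∧
    (∀ ω, P ω ∈ LD (ZMod p) V D) ∧
    ∀ y, (univ.filter fun ω => P ω y ≠ bK (f y)).card * p ^ ℓ ≤ e * Fintype.card Ω

end Pool.Agent.H820R3.AC
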