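import Pool.Agent.H746R3.Inv.Circ
import Pool.Agent.H559R4.SatDefs

/-!
# Interactive compression by circuits of small depth: definitions
-/

namespace Pool.Agent.H820R3.AC

open H746R3.Inv Pool.Agent.H559R4

/-- An interactive compression protocol for an instance with bits `I`. Alice knows the instance,
Bob does not. Alice sends `m` bits to Bob in total. Before she sends bit number `i`, Bob sends her
a string of `B` bits, which may depend in an arbitrary way on the bits that she has sent so far.
Bit number `i` is computed by the circuit `alice i` from the instance and the last message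
of Bob. (A compression of the instance into `m` bits in the usual sense is the case in which the
circuits do not read the messages of Bob.) -/
structure Protocol (I : Type) (m : ℕ) where
  /-- the number of bits of a message of Bob -/
  B : ℕ
  /-- the circuits of Alice -/
  alice : Fin m → Circuit (I ⊕ Fin B) Unit
  /-- the messages of Bob -/
  bob : ∀ i : Fin m, (Fin i → Bool) → Fin B → Bool

/-- On the instance `x` Alice sends the bits `τ`. -/
def Protocol.Sends {I : Type} {m : ℕ} (p : ℕ) (P : Protocol I m) (x : I → Bool)
    (τ : Fin m → Bool) : Prop :=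
  ∀ i : Fin m, (P.alice i).Computes p
    (Sum.elim x (P.bob i fun j => τ (Fin.castLE i.2.le j))) fun _ => τ i

/-- The circuits of Alice have depth at most `h` and they have at most `s` gates altogether, all of
them AND, OR or MOD-p gates. -/
def Protocol.Small {I : Type} {m : ℕ} (P : Protocol I m) (h s : ℕ) : Prop :=
  (∀ i, (P.alice i).DepthLE h) ∧ (∀ i g, ¬ ((P.alice i).kind g).IsWild) ∧
    ∑ i, (P.alice i).G ≤ s

/-- Every clause of the formula has at most three literals. -/
def Is3 {n M : ℕ} (φ : Fin M × Fin n × Bool → Bool) : Prop :=
  ∀ j, (Finset.univ.filter fun l : Fin n × Bool => φ (j, l) = true).card ≤ 3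

variable {t M n m : ℕ} {Ω : Type} [Fintype Ω]

/-- The protocol `P ρ`, for a random `ρ`, tells the OR of `t` formulas with one-sided error: if
some formula is satisfiable then Alice always sends a string in `A ρ`, and if no formula is
satisfiable then with probability at least `2 ^ (-e)` she does not. Only formulas all of whose
clauses have at most three literals are considered. -/
def OrProtocol (p e : ℕ) (P : Ω → Protocol (Fin t × Fin M × Fin n × Bool) m)
    (A : Ω → Set (Fin m → Bool)) : Prop :=
  ∀ φ : Fin t × Fin M × Fin n × Bool → Bool, (∀ i, Is3 fun l => φ (i, l)) →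
    ((∃ i, Sat fun l => φ (i, l)) → ∀ ρ τ, (P ρ).Sends p φ τ → τ ∈ A ρ) ∧
    ((∀ i, ¬ Sat fun l => φ (i, l)) →
      Fintype.card Ω ≤ 2 ^ e * Nat.card {ρ : Ω // ∀ τ, (P ρ).Sends p φ τ → τ ∉ A ρ})

/-- The protocol `P ρ`, for a random `ρ`, tells the AND of `t` formulas with one-sided error: if
some formula is unsatisfiable then Alice never sends a string in `A ρ`, and if all formulas are
satisfiable then with probability at least `2 ^ (-e)` she does. Only formulas all of whose
clauses have at most three literals are considered. -/
def AndProtocol (p e : ℕ) (P : Ω → Protocol (Fin t × Fin M × Fin n × Bool) m)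
    (A : Ω → Set (Fin m → Bool)) : Prop :=
  ∀ φ : Fin t × Fin M × Fin n × Bool → Bool, (∀ i, Is3 fun l => φ (i, l)) →
    ((∃ i, ¬ Sat fun l => φ (i, l)) → ∀ ρ τ, (P ρ).Sends p φ τ → τ ∉ A ρ) ∧
    ((∀ i, Sat fun l => φ (i, l)) →
      Fintype.card Ω ≤ 2 ^ e * Nat.card {ρ : Ω // ∀ τ, (P ρ).Sends p φ τ → τ ∈ A ρ})

end Pool.Agent.H820R3.AC
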