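import Pool.Agent.H820R3.AC.Core

namespace Pool.Agent.H820R3.AC

open H746R3.Inv Finset

theorem T12 (p : ℕ) [Fact p.Prime] : ∃ q : ℕ, 2 ≤ q ∧ q ≤ 3 ∧
    ∃ ζ : AlgebraicClosure (ZMod p), ζ ≠ 0 ∧ ζ ≠ 1 ∧ ζ ^ q = 1 := by
  by_cases hp : p = 2
  · subst hp
    have : CharP (AlgebraicClosure (ZMod 2)) 2 :=
      charP_of_injective_algebraMap (algebraMap (ZMod 2) (AlgebraicClosure (ZMod 2))).injective 2
    obtain ⟨ω, hω⟩ := IsAlgClosed.exists_root
      (Polynomial.X ^ 2 + Polynomial.X + 1 : Polynomial (AlgebraicClosure (ZMod 2)))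
      (by
        have : (Polynomial.X ^ 2 + Polynomial.X + 1 :
            Polynomial (AlgebraicClosure (ZMod 2))).degree = 2 := by compute_degree!
        rw [this]; norm_num)
    have hω' : ω ^ 2 + ω + 1 = 0 := by
      simpa [Polynomial.IsRoot.def] using hω
    have h2 : (2 : AlgebraicClosure (ZMod 2)) = 0 := by
      exact_mod_cast CharP.cast_eq_zero (AlgebraicClosure (ZMod 2)) 2
    refine ⟨3, by norm_num, le_refl _, ω, ?_, ?_, ?_⟩
    · rintro rfl
      simp at hω'
    · rintro rfl
      have h3 : (1 : AlgebraicClosure (ZMod 2)) = 0 := by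
        linear_combination hω' - h2
      exact one_ne_zero h3
    · linear_combination (ω - 1) * hω'
  · have h2 : (2 : AlgebraicClosure (ZMod p)) ≠ 0 := by
      have : CharP (AlgebraicClosure (ZMod p)) p :=
        charP_of_injective_algebraMap (algebraMap (ZMod p) (AlgebraicClosure (ZMod p))).injective p
      intro h
      have h3 : ((2 : ℕ) : AlgebraicClosure (ZMod p)) = 0 := by exact_mod_cast h
      rw [CharP.cast_eq_zero_iff (AlgebraicClosure (ZMod p)) p] at h3
      have := (Nat.prime_dvd_prime_iff_eq (Fact.out : p.Prime) Nat.prime_two).1 h3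
      exact hp this
    refine ⟨2, le_refl _, by norm_num, -1, by simp, ?_, by norm_num⟩
    intro h
    apply h2
    linear_combination -h

end Pool.Agent.H820R3.AC
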