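import Pool.Agent.H820R3.AC.Core

namespace Pool.Agent.H820R3.AC

open H746R3.Inv Finset Pool.Agent.H559R4

/-- the main arithmetic step -/
theorem T13_aux (p h q : ℕ) (hp : 2 ≤ p) (_hq : 2 ≤ q) (_hq' : q ≤ 3) (t N m e s lg : ℕ)
    (ht : 1 ≤ t) (hN : 1 ≤ N) (hs : t * N ≤ s) (hlg : s < 2 ^ lg) (hlg1 : 1 ≤ lg)
    (H : ∀ ℓ j L, 1 ≤ ℓ → 16 * (s + 1) ≤ p ^ ℓ → 8 * j ≤ t * N →
      (t * N + 1) * 2 ^ ((q - 1) * t + e + m + 16 * j ^ 2 / (t * N) + 1) < 2 ^ L →
      t * (N - N / 2) ≤ (t * N / 2 - j) + L * ((p - 1) * (ℓ * (p - 1)) ^ (h + 1))) :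
    t * N ≤ 144 * ((q - 1) * t + e + m + lg + 2) * ((p - 1) * ((lg + 4) * (p - 1)) ^ (h + 1)) ^ 2 := by
  set n' := t * N with hn'
  set K := (q - 1) * t + e + m + lg + 2 with hK
  set D := (p - 1) * ((lg + 4) * (p - 1)) ^ (h + 1) with hD
  have hn1 : 1 ≤ n' := Nat.mul_pos ht hN
  have hK1 : 1 ≤ K := by omega
  have hD1 : 1 ≤ D := by
    apply Nat.mul_pos
    · omega
    · apply Nat.pow_pos
      apply Nat.mul_pos <;> omega
  set r := Nat.sqrt (K * n') with hr
  have hr1 : r * r ≤ K * n' := Nat.sqrt_le _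
  have hr2 : K * n' < (r + 1) * (r + 1) := Nat.lt_succ_sqrt _
  set j := r / 4 with hj
  have hj4 : 4 * j ≤ r := Nat.mul_div_le r 4
  have hj5 : r < 4 * j + 4 := by omega
  rcases Nat.lt_or_ge n' (8 * j) with hA | hB
  · -- n' < 2 r
    have h1 : n' < 2 * r := by omega
    have h2 : n' * n' < 4 * K * n' := by
      calc n' * n' < (2 * r) * (2 * r) := Nat.mul_lt_mul'' h1 h1
        _ = 4 * (r * r) := by ring
        _ ≤ 4 * (K * n') := by gcongr
        _ = _ := by ring
    have h3 : n' < 4 * K := Nat.lt_of_mul_lt_mul_right h2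
    calc n' ≤ 4 * K * 1 := by omega
      _ ≤ 144 * K * D ^ 2 := by
        apply Nat.mul_le_mul
        · omega
        · exact Nat.one_le_pow _ _ hD1
  · -- main case
    have h16 : 16 * j ^ 2 ≤ K * n' := by
      calc 16 * j ^ 2 = (4 * j) * (4 * j) := by ring
        _ ≤ r * r := by gcongr
        _ ≤ _ := hr1
    have hdiv : 16 * j ^ 2 / n' ≤ K := by
      apply Nat.div_le_of_le_mul
      rw [mul_comm n' K]
      exact h16
    set a := (q - 1) * t + e + m + 16 * j ^ 2 / n' + 1 with ha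
    have hcond : (n' + 1) * 2 ^ a < 2 ^ (a + lg + 1) := by
      have h1 : n' + 1 ≤ 2 ^ lg := by omega
      calc (n' + 1) * 2 ^ a ≤ 2 ^ lg * 2 ^ a := by gcongr
        _ = 2 ^ (a + lg) := by rw [← pow_add, add_comm]
        _ < 2 ^ (a + lg + 1) := Nat.pow_lt_pow_right (by norm_num) (by omega)
    have hℓ : 16 * (s + 1) ≤ p ^ (lg + 4) := by
      calc 16 * (s + 1) ≤ 16 * 2 ^ lg := by gcongr; omega
        _ = 2 ^ (lg + 4) := by ring
        _ ≤ p ^ (lg + 4) := Nat.pow_le_pow_left hp _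
    have h2 := H (lg + 4) j (a + lg + 1) (by omega) hℓ hB hcond
    rw [← hD] at h2
    have h3 : n' ≤ 2 * (t * (N - N / 2)) := by
      rw [hn']
      have : N ≤ 2 * (N - N / 2) := by omega
      calc t * N ≤ t * (2 * (N - N / 2)) := by gcongr
        _ = _ := by ring
    have hL : a + lg + 1 ≤ 2 * K := by omega
    have h4 : j ≤ 2 * K * D := by
      have h5 : (a + lg + 1) * D ≤ 2 * K * D := by gcongr
      have h6 : j ≤ (a + lg + 1) * D := by omega
      omega
    have h7 : r + 1 ≤ 12 * (K * D) := by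
      have : 1 ≤ K * D := Nat.mul_pos hK1 hD1
      have h8 : 2 * K * D = 2 * (K * D) := by ring
      omega
    have h9 : K * n' < K * (144 * K * D ^ 2) := by
      calc K * n' < (r + 1) * (r + 1) := hr2
        _ ≤ (12 * (K * D)) * (12 * (K * D)) := by gcongr
        _ = _ := by ring
    exact (Nat.lt_of_mul_lt_mul_left h9).le

theorem T13 (p h q : ℕ) (hp : 2 ≤ p) (hq : 2 ≤ q) (hq' : q ≤ 3) : ∃ C : ℕ, ∀ t n m e s : ℕ,
    t * n ≤ s →
    (q - 1 ≤ n / q - 1 → ∀ ℓ j L, 1 ≤ ℓ → 16 * (s + 1) ≤ p ^ ℓ → 8 * j ≤ t * (n / q - 1) →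
      (t * (n / q - 1) + 1) *
        2 ^ ((q - 1) * t + e + m + 16 * j ^ 2 / (t * (n / q - 1)) + 1) < 2 ^ L →
      t * ((n / q - 1) - (n / q - 1) / 2) ≤
        (t * (n / q - 1) / 2 - j) + L * ((p - 1) * (ℓ * (p - 1)) ^ (h + 1))) →
    t * n ≤ C * (m + t + e) * (Nat.log 2 s + 1) ^ (2 * h + 3) := by
  set E : ℕ := 5 ^ (h + 1) * p ^ (h + 2) with hE
  refine ⟨2160 * E ^ 2 + 9, ?_⟩
  intro t n m e s hts H
  set lg := Nat.log 2 s + 1 with hlg
  have hlg1 : 1 ≤ lg := by omega
  have hslg : s < 2 ^ lg := Nat.lt_pow_succ_log_self (by norm_num) s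
  have hpow1 : 1 ≤ lg ^ (2 * h + 3) := Nat.one_le_pow _ _ hlg1
  rcases Nat.eq_zero_or_pos t with ht | ht
  · subst ht
    simp
  rcases Nat.lt_or_ge (n / q - 1) (q - 1) with hc | hc
  · have h1 : n < 9 := by
      have h2 : n / q < q := by omega
      have h3 : n < q * q := (Nat.div_lt_iff_lt_mul (by omega)).mp h2
      have h4 : q * q ≤ 9 := by
        calc q * q ≤ 3 * 3 := Nat.mul_le_mul hq' hq'
          _ = 9 := by norm_num
      omega
    calc t * n ≤ t * 9 := by gcongr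
      _ = 9 * t * 1 := by ring
      _ ≤ (2160 * E ^ 2 + 9) * (m + t + e) * lg ^ (2 * h + 3) := by
        gcongr
        · omega
        · omega
  · set N := n / q - 1 with hN
    have hN1 : 1 ≤ N := by omega
    have hnN : n ≤ q * (N + 2) := by
      have h1 := Nat.div_add_mod n q
      have h2 := Nat.mod_lt n (show 0 < q by omega)
      have h3 : n / q = N + 1 := by omega
      rw [h3] at h1
      have h4 : q * (N + 2) = q * (N + 1) + q := by ring
      omega
    have hnN2 : N ≤ n := by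
      have := Nat.div_le_self n q
      omega
    have hs' : t * N ≤ s := le_trans (Nat.mul_le_mul_left t hnN2) hts
    have h1 := T13_aux p h q hp hq hq' t N m e s lg ht hN1 hs' hslg hlg1 (H hc)
    have h2 : t * n ≤ 3 * (t * N) + 6 * t := by
      calc t * n ≤ t * (q * (N + 2)) := by gcongr
        _ ≤ t * (3 * (N + 2)) := by gcongr
        _ = _ := by ring
    have hD : (p - 1) * ((lg + 4) * (p - 1)) ^ (h + 1) ≤ E * lg ^ (h + 1) := by
      calc (p - 1) * ((lg + 4) * (p - 1)) ^ (h + 1) ≤ p * ((5 * lg) * p) ^ (h + 1) := by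
            gcongr
            · omega
            · omega
            · omega
        _ = _ := by
          rw [hE, mul_pow, mul_pow]
          ring
    have hK : (q - 1) * t + e + m + lg + 2 ≤ 5 * (m + t + e) * lg := by
      have h3 : (q - 1) * t ≤ 2 * t := by
        apply Nat.mul_le_mul_right
        omega
      have h4 : 5 * (m + t + e) + lg ≤ 5 * (m + t + e) * lg + 1 := by
        have : 1 ≤ 5 * (m + t + e) := by omega
        obtain ⟨x, hx⟩ := Nat.exists_eq_add_of_le this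
        obtain ⟨y, hy⟩ := Nat.exists_eq_add_of_le hlg1
        rw [hx, hy]
        nlinarith [Nat.zero_le (x * y)]
      omega
    have h5 : t * N ≤ 720 * E ^ 2 * ((m + t + e) * lg ^ (2 * h + 3)) := by
      calc t * N ≤ 144 * ((q - 1) * t + e + m + lg + 2)
            * ((p - 1) * ((lg + 4) * (p - 1)) ^ (h + 1)) ^ 2 := h1
        _ ≤ 144 * (5 * (m + t + e) * lg) * (E * lg ^ (h + 1)) ^ 2 := by gcongr
        _ = _ := by ring
    have h6 : t ≤ (m + t + e) * lg ^ (2 * h + 3) := by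
      calc t = t * 1 := by ring
        _ ≤ (m + t + e) * lg ^ (2 * h + 3) := by
          gcongr
          omega
    calc t * n ≤ 3 * (t * N) + 6 * t := h2
      _ ≤ 3 * (720 * E ^ 2 * ((m + t + e) * lg ^ (2 * h + 3)))
          + 9 * ((m + t + e) * lg ^ (2 * h + 3)) := by
        have : 6 * t ≤ 9 * ((m + t + e) * lg ^ (2 * h + 3)) := by omega
        omega
      _ = _ := by ring

end Pool.Agent.H820R3.AC
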