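import Pool.Agent.H820R3.AC.Core

namespace Pool.Agent.H820R3.AC

open H746R3.Inv Finset Pool.Agent.H559R4

theorem T14 (h C : ℕ) (ε : ℝ) (hε : 0 < ε) : ∃ δ : ℝ, 0 < δ ∧ ∀ᶠ n : ℕ in Filter.atTop,
    ∀ t m e s : ℕ, (s : ℝ) ≤ 2 ^ ((n : ℝ) ^ δ) →
      t * n ≤ C * (m + t + e) * (Nat.log 2 s + 1) ^ (2 * h + 3) →
      (t : ℝ) * (n : ℝ) ^ (1 - ε) ≤ m + e := by
  set k : ℕ := 2 * h + 3 with hk
  have hkpos : (0 : ℝ) < k := by
    have : 0 < k := by omega
    exact_mod_cast this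
  set ε' : ℝ := min ε 1 with hε'
  have he0 : 0 < ε' := lt_min hε one_pos
  have he1 : ε' ≤ 1 := min_le_right _ _
  have hee : ε' ≤ ε := min_le_left _ _
  set A : ℝ := C * 2 ^ k + 1 with hA
  have hA0 : 0 < A := by positivity
  refine ⟨ε' / (2 * k), by positivity, ?_⟩
  have hlim : Filter.Tendsto (fun n : ℕ => (n : ℝ) ^ (ε' / 2)) Filter.atTop Filter.atTop :=
    (tendsto_rpow_atTop (by positivity)).comp tendsto_natCast_atTop_atTop
  filter_upwards [hlim.eventually_ge_atTop (2 * A), Filter.eventually_ge_atTop 1] with n hn1 hn2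
  intro t m e s hs hle
  have hn : (1 : ℝ) ≤ n := by exact_mod_cast hn2
  have hn0 : (0 : ℝ) < n := by linarith
  set X : ℝ := (n : ℝ) ^ (ε' / 2) with hX
  set Y : ℝ := (n : ℝ) ^ (1 - ε') with hY
  set Z : ℝ := (n : ℝ) ^ (ε' / (2 * k)) with hZ
  have hX0 : 0 < X := by positivity
  have hY1 : 1 ≤ Y := Real.one_le_rpow hn (by linarith)
  have hZ1 : 1 ≤ Z := Real.one_le_rpow hn (by positivity)
  have hlog : (Nat.log 2 s : ℝ) ≤ Z := by
    rcases Nat.eq_zero_or_pos s with h0 | h0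
    · subst h0
      simp
      linarith
    · have h1 : (2 : ℝ) ^ (Nat.log 2 s : ℝ) ≤ 2 ^ Z := by
        rw [Real.rpow_natCast]
        have : (((2 : ℕ) ^ (Nat.log 2 s) : ℕ) : ℝ) ≤ s := by
          exact_mod_cast Nat.pow_log_le_self 2 h0.ne'
        push_cast at this
        exact this.trans hs
      exact (Real.rpow_le_rpow_left_iff (by norm_num)).mp h1
  have hZk : Z ^ k = X := by
    rw [hZ, hX, ← Real.rpow_natCast, ← Real.rpow_mul hn0.le]
    congr 1
    field_simp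
  have hpow : ((Nat.log 2 s : ℝ) + 1) ^ k ≤ 2 ^ k * X := by
    rw [← hZk, ← mul_pow]
    apply pow_le_pow_left₀ (by positivity)
    linarith
  have hle' : (t : ℝ) * n ≤ C * (m + t + e) * ((Nat.log 2 s : ℝ) + 1) ^ k := by
    exact_mod_cast hle
  have h1 : (t : ℝ) * n ≤ A * (m + t + e) * X := by
    calc (t : ℝ) * n ≤ C * (m + t + e) * ((Nat.log 2 s : ℝ) + 1) ^ k := hle'
      _ ≤ C * (m + t + e) * (2 ^ k * X) := by gcongr
      _ = (C * 2 ^ k) * ((m + t + e) * X) := by ring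
      _ ≤ A * ((m + t + e) * X) := by
        apply mul_le_mul_of_nonneg_right _ (by positivity)
        rw [hA]
        linarith
      _ = _ := by ring
  have hn3 : (n : ℝ) = X * Y * X := by
    rw [hX, hY, ← Real.rpow_add hn0, ← Real.rpow_add hn0]
    conv_lhs => rw [← Real.rpow_one (n : ℝ)]
    congr 1
    ring
  have h2 : (t : ℝ) * (X * Y) ≤ A * (m + t + e) := by
    have : ((t : ℝ) * (X * Y)) * X ≤ (A * (m + t + e)) * X := by
      calc ((t : ℝ) * (X * Y)) * X = t * n := by rw [hn3]; ring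
        _ ≤ _ := h1
    exact le_of_mul_le_mul_right this hX0
  have ht0 : (0 : ℝ) ≤ t := Nat.cast_nonneg _
  have h3 : (2 * A) * Y ≤ X * Y := by gcongr
  have h4 : (t : ℝ) * (2 * A * Y) ≤ A * (m + t + e) :=
    le_trans (by gcongr) h2
  have h5 : (t : ℝ) * Y ≤ m + e := by
    have h6 : 2 * (t * Y) ≤ m + t + e := by
      have : A * (2 * (t * Y)) ≤ A * (m + t + e) := by
        calc A * (2 * (t * Y)) = (t : ℝ) * (2 * A * Y) := by ring
          _ ≤ _ := h4
      exact le_of_mul_le_mul_left this hA0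
    have h7 : (t : ℝ) ≤ t * Y := by nlinarith
    linarith
  have h8 : (n : ℝ) ^ (1 - ε) ≤ Y := Real.rpow_le_rpow_of_exponent_le hn (by linarith)
  calc (t : ℝ) * (n : ℝ) ^ (1 - ε) ≤ t * Y := by gcongr
    _ ≤ m + e := h5

end Pool.Agent.H820R3.AC
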