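import Pool.Agent.H820R3.AC.Core

namespace Pool.Agent.H820R3.AC

open H746R3.Inv Finset Pool.Agent.H559R4

/-- the clauses of the formula -/
abbrev T9Cl (q N : ℕ) : Type := Unit ⊕ (Fin N × ZMod q × Bool) ⊕ ZMod q

/-- partial sums modulo `q` -/
def T9pre {q N : ℕ} (x : Fin N → Bool) (k : Fin (N + 1)) : ZMod q :=
  (((univ.filter fun j : Fin N => (j : ℕ) < (k : ℕ) ∧ x j = true).card : ℕ) : ZMod q)

/-- value of a bit -/
def T9b {q : ℕ} (b : Bool) : ZMod q := if b = true then 1 else 0

theorem T9pre_zero {q N : ℕ} (x : Fin N → Bool) : T9pre (q := q) x 0 = 0 := by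
  unfold T9pre
  simp

theorem T9pre_last {q N : ℕ} (x : Fin N → Bool) : T9pre (q := q) x (Fin.last N)
    = (((univ.filter fun j => x j = true).card : ℕ) : ZMod q) := by
  unfold T9pre
  congr 2
  ext j
  simp

theorem T9pre_succ {q N : ℕ} (x : Fin N → Bool) (j : Fin N) : T9pre (q := q) x j.succ
    = T9pre (q := q) x j.castSucc + T9b (x j) := by
  unfold T9pre T9b
  by_cases hx : x j = true
  · have h1 : (univ.filter fun i : Fin N => (i : ℕ) < (j.succ : ℕ) ∧ x i = true)
        = insert j (univ.filter fun i : Fin N => (i : ℕ) < (j.castSucc : ℕ) ∧ x i = true) := by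
      ext i
      simp only [mem_filter, mem_univ, true_and, mem_insert, Fin.val_succ, Fin.val_castSucc]
      constructor
      · rintro ⟨h1, h2⟩
        rcases Nat.lt_or_ge i j with h3 | h3
        · exact Or.inr ⟨h3, h2⟩
        · left
          apply Fin.ext
          omega
      · rintro (h1 | ⟨h1, h2⟩)
        · subst h1
          exact ⟨by omega, hx⟩
        · exact ⟨by omega, h2⟩
    rw [h1, Finset.card_insert_of_notMem (by simp)]
    simp [hx]
  · have h1 : (univ.filter fun i : Fin N => (i : ℕ) < (j.succ : ℕ) ∧ x i = true)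
        = (univ.filter fun i : Fin N => (i : ℕ) < (j.castSucc : ℕ) ∧ x i = true) := by
      ext i
      simp only [mem_filter, mem_univ, true_and, Fin.val_succ, Fin.val_castSucc]
      constructor
      · rintro ⟨h1, h2⟩
        rcases Nat.lt_or_ge i j with h3 | h3
        · exact ⟨h3, h2⟩
        · exfalso
          apply hx
          have : i = j := by
            apply Fin.ext
            omega
          rw [← this]
          exact h2
      · rintro ⟨h1, h2⟩
        exact ⟨by omega, h2⟩
    rw [h1]
    simp [hx]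

open Classical in
/-- the incidence of literals in clauses -/
noncomputable def T9E {q N n : ℕ} (v : Fin (N + 1) × ZMod q → Fin n) (T : Set (ZMod q))
    (x : Fin N → Bool) : T9Cl q N → Fin n → Bool → Bool
  | Sum.inl _, u, w => decide (u = v (0, 0) ∧ w = true)
  | Sum.inr (Sum.inl (j, a, b)), u, w => decide ((u = v (j.castSucc, a) ∧ w = false) ∨
      (u = v (j.succ, a + T9b b) ∧ w = true) ∨ (u = v (0, 0) ∧ w = true ∧ x j ≠ b))
  | Sum.inr (Sum.inr a), u, w => decide ((u = v (Fin.last N, a) ∧ w = false) ∨
      (u = v (0, 0) ∧ w = true ∧ a ∉ T))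

theorem T9_bits {q N n : ℕ} (v : Fin (N + 1) × ZMod q → Fin n) (T : Set (ZMod q))
    (κ : T9Cl q N) (u : Fin n) (w : Bool) :
    (∃ b, ∀ x, T9E v T x κ u w = b) ∨ ∃ j b, ∀ x, T9E v T x κ u w = xor (x j) b := by
  classical
  rcases κ with _ | ⟨j, a, b⟩ | a
  · left
    exact ⟨_, fun x => rfl⟩
  · by_cases h1 : (u = v (j.castSucc, a) ∧ w = false) ∨ (u = v (j.succ, a + T9b b) ∧ w = true)
    · left
      refine ⟨true, fun x => ?_⟩
      unfold T9E
      simp only [decide_eq_true_eq]
      tauto
    · by_cases h2 : u = v (0, 0) ∧ w = true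
      · right
        refine ⟨j, b, fun x => ?_⟩
        unfold T9E
        have h3 : ((u = v (j.castSucc, a) ∧ w = false) ∨ (u = v (j.succ, a + T9b b) ∧ w = true) ∨
          (u = v (0, 0) ∧ w = true ∧ x j ≠ b)) ↔ x j ≠ b := by tauto
        simp only [h3]
        cases x j <;> cases b <;> simp
      · left
        refine ⟨false, fun x => ?_⟩
        unfold T9E
        simp only [decide_eq_false_iff_not]
        tauto
  · left
    exact ⟨_, fun x => rfl⟩

theorem T9_card3 {α : Type*} [DecidableEq α] (s : Finset α) (a b c : α)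
    (h : ∀ l ∈ s, l = a ∨ l = b ∨ l = c) : s.card ≤ 3 := by
  have h1 : s ⊆ {a, b, c} := by
    intro l hl
    simp only [mem_insert, mem_singleton]
    exact h l hl
  exact (Finset.card_le_card h1).trans Finset.card_le_three

theorem T9_three {q N n : ℕ} (v : Fin (N + 1) × ZMod q → Fin n) (T : Set (ZMod q))
    (x : Fin N → Bool) (κ : T9Cl q N) :
    (univ.filter fun l : Fin n × Bool => T9E v T x κ l.1 l.2 = true).card ≤ 3 := by
  classical
  rcases κ with _ | ⟨j, a, b⟩ | a
  · apply T9_card3 _ (v (0, 0), true) (v (0, 0), true) (v (0, 0), true)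
    rintro ⟨u, w⟩ hl
    simp only [mem_filter, mem_univ, true_and, T9E, decide_eq_true_eq] at hl
    left
    rw [hl.1, hl.2]
  · apply T9_card3 _ (v (j.castSucc, a), false) (v (j.succ, a + T9b b), true) (v (0, 0), true)
    rintro ⟨u, w⟩ hl
    simp only [mem_filter, mem_univ, true_and, T9E, decide_eq_true_eq] at hl
    rcases hl with h | h | h
    · left
      rw [h.1, h.2]
    · right; left
      rw [h.1, h.2]
    · right; right
      rw [h.1, h.2.1]
  · apply T9_card3 _ (v (Fin.last N, a), false) (v (0, 0), true) (v (0, 0), true)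
    rintro ⟨u, w⟩ hl
    simp only [mem_filter, mem_univ, true_and, T9E, decide_eq_true_eq] at hl
    rcases hl with h | h
    · left
      rw [h.1, h.2]
    · right; left
      rw [h.1, h.2.1]

theorem T9_sat {q N n : ℕ} (v : Fin (N + 1) × ZMod q → Fin n) (hv : Function.Injective v)
    (T : Set (ZMod q)) (x : Fin N → Bool) :
    (∃ a : Fin n → Bool, ∀ κ : T9Cl q N, ∃ i, T9E v T x κ i (a i) = true) ↔
      (((univ.filter fun j => x j = true).card : ℕ) : ZMod q) ∉ T := by
  classical
  rw [← T9pre_last]
  constructor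
  · rintro ⟨a, ha⟩
    have h0 : a (v (0, 0)) = true := by
      obtain ⟨i, hi⟩ := ha (Sum.inl ())
      simp only [T9E, decide_eq_true_eq] at hi
      rw [← hi.1]
      exact hi.2
    have hstep : ∀ j : Fin N, a (v (j.castSucc, T9pre x j.castSucc)) = true →
        a (v (j.succ, T9pre x j.succ)) = true := by
      intro j hj
      obtain ⟨i, hi⟩ := ha (Sum.inr (Sum.inl (j, T9pre x j.castSucc, x j)))
      simp only [T9E, decide_eq_true_eq] at hi
      rcases hi with h | h | h
      · rw [h.1] at h
        rw [h.2] at hj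
        simp at hj
      · rw [T9pre_succ, ← h.1]
        exact h.2
      · exact absurd rfl h.2.2
    have hall : ∀ k : Fin (N + 1), a (v (k, T9pre x k)) = true := by
      intro k
      induction k using Fin.induction with
      | zero => rw [T9pre_zero]; exact h0
      | succ j ih => exact hstep j ih
    obtain ⟨i, hi⟩ := ha (Sum.inr (Sum.inr (T9pre x (Fin.last N))))
    simp only [T9E, decide_eq_true_eq] at hi
    rcases hi with h | h
    · have h1 := hall (Fin.last N)
      rw [← h.1, h.2] at h1
      simp at h1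
    · exact h.2.2
  · intro hW
    refine ⟨fun u => decide (∃ k : Fin (N + 1), u = v (k, T9pre x k)), ?_⟩
    have h0 : (decide (∃ k : Fin (N + 1), v (0, 0) = v (k, T9pre x k))) = true := by
      rw [decide_eq_true_eq]
      exact ⟨0, by rw [T9pre_zero]⟩
    rintro (_ | ⟨j, r, b⟩ | r)
    · refine ⟨v (0, 0), ?_⟩
      simp only [T9E, h0]
      simp
    · by_cases hx : x j = b
      · by_cases hr : r = T9pre x j.castSucc
        · refine ⟨v (j.succ, r + T9b b), ?_⟩
          have h1 : (decide (∃ k : Fin (N + 1), v (j.succ, r + T9b b) = v (k, T9pre x k))) = true := by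
            rw [decide_eq_true_eq]
            exact ⟨j.succ, by rw [T9pre_succ, hr, hx]⟩
          simp only [T9E, h1]
          simp
        · refine ⟨v (j.castSucc, r), ?_⟩
          have h1 : (decide (∃ k : Fin (N + 1), v (j.castSucc, r) = v (k, T9pre x k))) = false := by
            rw [decide_eq_false_iff_not]
            rintro ⟨k, hk⟩
            have h2 := hv hk
            rw [Prod.mk.injEq] at h2
            apply hr
            rw [h2.1]
            exact h2.2
          simp only [T9E, h1]
          simp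
      · refine ⟨v (0, 0), ?_⟩
        simp only [T9E, h0]
        simp [hx]
    · by_cases hr : r ∈ T
      · refine ⟨v (Fin.last N, r), ?_⟩
        have h1 : (decide (∃ k : Fin (N + 1), v (Fin.last N, r) = v (k, T9pre x k))) = false := by
          rw [decide_eq_false_iff_not]
          rintro ⟨k, hk⟩
          have h2 := hv hk
          rw [Prod.mk.injEq] at h2
          apply hW
          rw [h2.1, ← h2.2]
          exact hr
        simp only [T9E, h1]
        simp
      · refine ⟨v (0, 0), ?_⟩
        simp only [T9E, h0]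
        simp [hr]

theorem T9 (q N n M : ℕ) (hq : 2 ≤ q) (hn : q * (N + 1) ≤ n) (hM : 2 * n ≤ M)
    (T : Set (ZMod q)) :
    ∃ enc : (Fin N → Bool) → (Fin M × Fin n × Bool → Bool),
      (∀ l, (∃ b, ∀ x, enc x l = b) ∨ ∃ j b, ∀ x, enc x l = xor (x j) b) ∧
      (∀ x, Is3 (enc x)) ∧
      ∀ x, Sat (enc x) ↔ (((univ.filter fun j => x j = true).card : ℕ) : ZMod q) ∉ T := by
  haveI : NeZero q := ⟨by omega⟩
  obtain ⟨v⟩ : Nonempty (Fin (N + 1) × ZMod q ↪ Fin n) := by
    apply Function.Embedding.nonempty_of_card_le
    rw [Fintype.card_prod, Fintype.card_fin, Fintype.card_fin, ZMod.card]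
    calc (N + 1) * q = q * (N + 1) := mul_comm _ _
      _ ≤ n := hn
  obtain ⟨f⟩ : Nonempty (T9Cl q N ↪ Fin M) := by
    apply Function.Embedding.nonempty_of_card_le
    simp only [T9Cl, Fintype.card_sum, Fintype.card_prod, Fintype.card_fin, ZMod.card,
      Fintype.card_bool, Fintype.card_unit]
    have h1 : q * (N + 1) = N * q + q := by ring
    have h2 : N * (q * 2) = 2 * (N * q) := by ring
    omega
  set π : Fin M → T9Cl q N := Function.invFun f with hπ
  have hπs : Function.Surjective π := Function.invFun_surjective f.injective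
  refine ⟨fun x l => T9E v T x (π l.1) l.2.1 l.2.2, ?_, ?_, ?_⟩
  · intro l
    exact T9_bits v T (π l.1) l.2.1 l.2.2
  · intro x j
    exact T9_three v T x (π j)
  · intro x
    rw [← T9_sat v v.injective T x]
    unfold Sat
    constructor
    · rintro ⟨a, ha⟩
      refine ⟨a, fun κ => ?_⟩
      obtain ⟨c, rfl⟩ := hπs κ
      exact ha c
    · rintro ⟨a, ha⟩
      exact ⟨a, fun c => ha (π c)⟩

end Pool.Agent.H820R3.AC
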