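import Pool.Agent.H820R3.AC.T11
import Pool.Agent.H820R3.AC.T9
import Pool.Agent.H820R3.AC.T12
import Pool.Agent.H820R3.AC.T13
import Pool.Agent.H820R3.AC.T14

namespace Pool.Agent.H820R3.AC

open H746R3.Inv Finset Pool.Agent.H559R4

theorem bit_LD {p : ℕ} [Fact p.Prime] {V : Type*} [Fintype V] [DecidableEq V]
    {f : (V → Bool) → Bool} (hf : (∃ b, ∀ x, f x = b) ∨ ∃ j b, ∀ x, f x = xor (x j) b) :
    (fun y => (bK (f y) : ZMod p)) ∈ LD (ZMod p) V 1 := by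
  rcases hf with ⟨b, hb⟩ | ⟨j, b, hb⟩
  · have : (fun y => (bK (f y) : ZMod p)) = fun _ => bK b := by
      funext y; rw [hb]
    rw [this]
    exact const_mem _ _
  · have : (fun y => (bK (f y) : ZMod p)) = fun y => (fun c => bK (xor c b)) (y j) := by
      funext y; rw [hb]
    rw [this]
    exact bit_mem (fun c => (bK (xor c b) : ZMod p)) j

/-- the bound for OR and AND protocols together -/
theorem bound_aux {p : ℕ} [Fact p.Prime] {q : ℕ} (hq : 2 ≤ q)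
    (ζ : AlgebraicClosure (ZMod p)) (h0 : ζ ≠ 0) (h1 : ζ ≠ 1) (hζ : ζ ^ q = 1)
    {h t M n m e s : ℕ} {Ω : Type} [Fintype Ω] [Nonempty Ω]
    (P : Ω → Protocol (Fin t × Fin M × Fin n × Bool) m)
    (A : Ω → Set (Fin m → Bool)) (hP : ∀ ρ, (P ρ).Small h s) (hM : 2 * n ≤ M)
    (T : Set (ZMod q)) (hT : (T = {0} ∧ OrProtocol p e P A) ∨ (T = {0}ᶜ ∧ AndProtocol p e P A))
    (hN : q - 1 ≤ n / q - 1) (ℓ j L : ℕ) (hℓ : 1 ≤ ℓ) (hℓs : 16 * (s + 1) ≤ p ^ ℓ)
    (hj : 8 * j ≤ t * (n / q - 1))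
    (hL : (t * (n / q - 1) + 1) *
        2 ^ ((q - 1) * t + e + m + 16 * j ^ 2 / (t * (n / q - 1)) + 1) < 2 ^ L) :
    t * ((n / q - 1) - (n / q - 1) / 2) ≤
        (t * (n / q - 1) / 2 - j) + L * ((p - 1) * (ℓ * (p - 1)) ^ (h + 1)) := by
  classical
  have hn : q * ((n / q - 1) + 1) ≤ n := by
    have h2 : (n / q - 1) + 1 = n / q := by omega
    rw [h2]
    exact Nat.mul_div_le n q
  set N := n / q - 1 with hNdef
  obtain ⟨enc, henc1, henc3, hencS⟩ := T9 q N n M hq hn hM T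
  have hwt : ∀ x : Fin N → Bool,
      (((univ.filter fun j => x j = true).card : ℕ) : ZMod q) = 0 ↔
        q ∣ (univ.filter fun j => x j = true).card := fun x => ZMod.natCast_eq_zero_iff _ _
  -- the set of the answers which mean that all blocks vanish
  set A' : Ω → Set (Fin m → Bool) := fun ρ => if T = {0} then (A ρ)ᶜ else A ρ with hA'
  have hTne : ({0}ᶜ : Set (ZMod q)) ≠ {0} := by
    intro hh
    have h2 : (0 : ZMod q) ∈ ({0}ᶜ : Set (ZMod q)) := by rw [hh]; rfl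
    exact h2 rfl
  refine T11 ζ h0 h1 hζ (by omega) hN P hP A'
    (fun y l => enc (fun j => y (l.1, j)) l.2) ?_ ?_ ?_ ℓ j L hℓ hℓs hj hL
  · intro l
    rcases henc1 l.2 with ⟨b, hb⟩ | ⟨j, b, hb⟩
    · exact bit_LD (Or.inl ⟨b, fun y => hb _⟩)
    · exact bit_LD (Or.inr ⟨(l.1, j), b, fun y => hb _⟩)
  · intro y ρ τ hs hτ i
    rw [← hwt (fun j => y (i, j))]
    by_contra hne
    rcases hT with ⟨hT, hor⟩ | ⟨hT, hand⟩
    · have h2 : Sat (enc fun j => y (i, j)) := by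
        rw [hencS, hT]
        exact hne
      have h3 := (hor (fun l => enc (fun j => y (l.1, j)) l.2) (fun i => henc3 fun j => y (i, j))).1
        ⟨i, h2⟩ ρ τ hs
      simp only [hA', if_pos hT] at hτ
      exact hτ h3
    · have h2 : ¬ Sat (enc fun j => y (i, j)) := by
        rw [hencS, hT]
        intro h3
        exact h3 hne
      have h3 := (hand (fun l => enc (fun j => y (l.1, j)) l.2) (fun i => henc3 fun j => y (i, j))).1
        ⟨i, h2⟩ ρ τ hs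
      have hT' : T ≠ {0} := by rw [hT]; exact hTne
      simp only [hA', if_neg hT'] at hτ
      exact h3 hτ
  · intro y hy
    rcases hT with ⟨hT, hor⟩ | ⟨hT, hand⟩
    · have h3 := (hor (fun l => enc (fun j => y (l.1, j)) l.2) (fun i => henc3 fun j => y (i, j))).2 (by
        intro i hsat
        have h4 := (hencS fun j => y (i, j)).1 hsat
        rw [hT] at h4
        exact h4 ((hwt _).2 (hy i)))
      simp only [hA', if_pos hT]
      exact h3
    · have h3 := (hand (fun l => enc (fun j => y (l.1, j)) l.2) (fun i => henc3 fun j => y (i, j))).2 (by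
        intro i
        refine (hencS fun j => y (i, j)).2 ?_
        rw [hT]
        intro h4
        exact h4 ((hwt _).2 (hy i)))
      have hT' : T ≠ {0} := by rw [hT]; exact hTne
      simp only [hA', if_neg hT']
      exact h3

theorem main_bound (p : ℕ) (hp : p.Prime) (h : ℕ) : ∃ C : ℕ, ∀ {t M n m e s : ℕ} {Ω : Type}
    [Fintype Ω] [Nonempty Ω] (P : Ω → Protocol (Fin t × Fin M × Fin n × Bool) m)
    (A : Ω → Set (Fin m → Bool)), (∀ ρ, (P ρ).Small h s) → t * n ≤ s → 2 * n ≤ M →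
    (OrProtocol p e P A ∨ AndProtocol p e P A) →
    t * n ≤ C * (m + t + e) * (Nat.log 2 s + 1) ^ (2 * h + 3) := by
  have : Fact p.Prime := ⟨hp⟩
  obtain ⟨q, hq, hq', ζ, h0, h1, hζ⟩ := T12 p
  obtain ⟨C, hC⟩ := T13 p h q hp.two_le hq hq'
  refine ⟨C, fun {t M n m e s Ω} _ _ P A hP hs hM hPA => hC t n m e s hs ?_⟩
  intro hN ℓ j L hℓ hℓs hj hL
  rcases hPA with hor | hand
  · exact bound_aux hq ζ h0 h1 hζ P A hP hM {0} (Or.inl ⟨rfl, hor⟩) hN ℓ j L hℓ hℓs hj hL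
  · exact bound_aux hq ζ h0 h1 hζ P A hP hM {0}ᶜ (Or.inr ⟨rfl, hand⟩) hN ℓ j L hℓ hℓs hj hL

theorem main (p : ℕ) (hp : p.Prime) (h : ℕ) :
    (∃ C : ℕ, ∀ {t M n m e s : ℕ} {Ω : Type} [Fintype Ω] [Nonempty Ω]
      (P : Ω → Protocol (Fin t × Fin M × Fin n × Bool) m) (A : Ω → Set (Fin m → Bool)),
      (∀ ρ, (P ρ).Small h s) → t * n ≤ s → 2 * n ≤ M →
      (OrProtocol p e P A ∨ AndProtocol p e P A) →
      t * n ≤ C * (m + t + e) * (Nat.log 2 s + 1) ^ (2 * h + 3)) ∧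
    ∀ ε : ℝ, 0 < ε → ∃ δ : ℝ, 0 < δ ∧ ∀ᶠ n : ℕ in Filter.atTop,
      ∀ {t M m e s : ℕ} {Ω : Type} [Fintype Ω] [Nonempty Ω]
      (P : Ω → Protocol (Fin t × Fin M × Fin n × Bool) m) (A : Ω → Set (Fin m → Bool)),
      (∀ ρ, (P ρ).Small h s) → t * n ≤ s → 2 * n ≤ M →
      (OrProtocol p e P A ∨ AndProtocol p e P A) →
      (s : ℝ) ≤ 2 ^ ((n : ℝ) ^ δ) → (t : ℝ) * (n : ℝ) ^ (1 - ε) ≤ m + e := by
  obtain ⟨C, hC⟩ := main_bound p hp h
  refine ⟨⟨C, hC⟩, fun ε hε => ?_⟩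
  obtain ⟨δ, hδ, hn⟩ := T14 h C ε hε
  refine ⟨δ, hδ, hn.mono fun n hn t M m e s Ω _ _ P A hP hs hM hPA hsn => ?_⟩
  exact hn t m e s hsn (hC P A hP hs hM hPA)

end Pool.Agent.H820R3.AC
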