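import Pool.Agent.H820R3.AC.Core

namespace Pool.Agent.H820R3.AC

open H746R3.Inv Finset Pool.Agent.H559R4

/-! ## T1: functions supported on the points all of whose blocks vanish have high degree -/

section T1
variable {K : Type*} [Field K]

theorem T1a {V : Type*} [Fintype V] [DecidableEq V] {k : ℕ} {f : (V → Bool) → K}
    (hf : f ∈ LD K V k) (hk : k < Fintype.card V) :
    ∑ y : V → Bool, (-1) ^ (univ.filter fun v => y v = true).card * f y = 0 := by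
  sorry

theorem T1b {t N : ℕ} (ζ : K) (h0 : ζ ≠ 0) (h1 : ζ ≠ 1) (g : (Fin t × Fin N → Bool) → K) :
    ∃ g' ∈ LD K (Fin t × Fin N) (t * (N / 2)),
      ∀ y, (∀ i, ∏ j, zz ζ (y (i, j)) = 1) → g' y = g y := by
  sorry

theorem T1 {t N d : ℕ} (ζ : K) (h0 : ζ ≠ 0) (h1 : ζ ≠ 1) (Q : (Fin t × Fin N → Bool) → K)
    (hQ : Q ∈ LD K (Fin t × Fin N) d) (hne : ∃ y, Q y ≠ 0)
    (hZ : ∀ y, Q y ≠ 0 → ∀ i, ∏ j, zz ζ (y (i, j)) = 1) : t * (N - N / 2) ≤ d := by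
  sorry

end T1

/-! ## T2: functions of degree `r` that vanish on a small set but not on a large set -/

section T2
variable {K : Type*} [Field K] {V : Type*} [Fintype V] [DecidableEq V]

theorem T2a (v : V → Bool) (r : ℕ) (g : (V → Bool) → K) :
    ∃ R ∈ LD K V r, ∀ y : V → Bool, (univ.filter fun i => y i ≠ v i).card ≤ r → R y = g y := by
  sorry

theorem T2b (S : Finset (V → Bool)) (r : ℕ) :
    ∃ v : V → Bool, S.card * ball (Fintype.card V) r ≤ 2 ^ Fintype.card V *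
      (S.filter fun y => (univ.filter fun i => y i ≠ v i).card ≤ r).card := by
  sorry

theorem T2c (r : ℕ) (S E : Finset (V → Bool)) (hES : E.card < S.card)
    (hS : ∀ g : (V → Bool) → K, ∃ R ∈ LD K V r, ∀ y ∈ S, R y = g y) :
    ∃ R ∈ LD K V r, (∀ y ∈ E, R y = 0) ∧ ∃ y ∈ S, R y ≠ 0 := by
  sorry

end T2

/-! ## T3: a lower bound for the number of small sets -/

theorem T3 (n j : ℕ) (hj : 8 * j ≤ n) :
    2 ^ n ≤ (n + 1) * 2 ^ (16 * j ^ 2 / n + 1) * ball n (n / 2 - j) := by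
  sorry

/-! ## T4: probabilistic polynomials -/

section T4
variable {p : ℕ} [Fact p.Prime] {V : Type} [Fintype V] [DecidableEq V]

theorem T4a {I : Type} (C : Circuit I Unit) (h ℓ : ℕ) (hℓ : 1 ≤ ℓ) (hC : C.DepthLE h)
    (hw : ∀ g, ¬ (C.kind g).IsWild) (inp : I → (V → Bool) → Bool)
    (hinp : ∀ i, (fun y => (bK (inp i y) : ZMod p)) ∈ LD (ZMod p) V 1)
    (f : (V → Bool) → Bool) (hf : ∀ y, C.Computes p (fun i => inp i y) fun _ => f y) :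
    PP p ((ℓ * (p - 1)) ^ h) ℓ C.G f := by
  sorry

theorem T4b {m : ℕ} (D ℓ : ℕ) (hℓ : 1 ≤ ℓ) (e : Fin m → ℕ) (f : Fin m → (V → Bool) → Bool)
    (hf : ∀ i, PP p D ℓ (e i) (f i)) :
    PP p (ℓ * (p - 1) * D) ℓ (∑ i, e i + 1) (fun y => decide (∀ i, f i y = true)) := by
  sorry

open Classical in
theorem T4c {I : Type} {m : ℕ} (P : Protocol I m) (h s ℓ : ℕ) (hℓ : 1 ≤ ℓ) (hP : P.Small h s)
    (inst : (V → Bool) → I → Bool)
    (hinst : ∀ l, (fun y => (bK (inst y l) : ZMod p)) ∈ LD (ZMod p) V 1) (τ : Fin m → Bool) :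
    PP p ((ℓ * (p - 1)) ^ (h + 1)) ℓ (s + 1)
      (fun y : V → Bool => decide (P.Sends p (inst y) τ)) := by
  sorry

end T4

/-! ## T5: reduction of the error -/

theorem T5a {K : Type*} [Field K] {V : Type*} [DecidableEq V] {L D : ℕ}
    (b : Fin L → (V → Bool) → Bool)
    (hb : ∀ i, (fun y => (bK (b i y) : K)) ∈ LD K V D) (φ : (Fin L → Bool) → Bool) :
    (fun y => (bK (φ fun i => b i y) : K)) ∈ LD K V (L * D) := by
  sorry

theorem T5b {Ω : Type*} [Fintype Ω] [DecidableEq Ω] (L : ℕ) (B : Finset Ω)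
    (hB : 16 * B.card ≤ Fintype.card Ω) :
    (univ.filter fun ω : Fin L → Ω => L ≤ 2 * (univ.filter fun i => ω i ∈ B).card).card * 2 ^ L ≤
      Fintype.card Ω ^ L := by
  sorry

theorem T5c {p : ℕ} [Fact p.Prime] {V : Type} [Fintype V] [DecidableEq V] {D ℓ e : ℕ}
    {f : (V → Bool) → Bool} (hf : PP p D ℓ e f) (he : 16 * e ≤ p ^ ℓ) (L : ℕ) :
    ∃ P ∈ LD (ZMod p) V (L * ((p - 1) * D)), ∃ E : Finset (V → Bool),
      E.card * 2 ^ L ≤ 2 ^ Fintype.card V ∧ ∀ y ∉ E, P y = bK (f y) := by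
  sorry

/-! ## T6: extension of the field -/

theorem T6 {p : ℕ} [Fact p.Prime] (K : Type*) [Field K] [Algebra (ZMod p) K] {V : Type*}
    [DecidableEq V] {d : ℕ} {f : (V → Bool) → ZMod p} (hf : f ∈ LD (ZMod p) V d) :
    (fun y => algebraMap (ZMod p) K (f y)) ∈ LD K V d := by
  sorry

/-! ## T7: a transcript that occurs often -/

theorem T7a {I : Type} {m : ℕ} (p : ℕ) (P : Protocol I m) (x : I → Bool) :
    ∃ τ, P.Sends p x τ := by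
  sorry

open Classical in
theorem T7b {Ω Y T : Type*} [Fintype Ω] [Nonempty Ω] [Fintype T] [Nonempty T]
    (R : Ω → Y → T → Prop) (Z : Finset Y) (e : ℕ)
    (h : ∀ y ∈ Z, Fintype.card Ω ≤ 2 ^ e * Nat.card {ρ : Ω // ∃ τ, R ρ y τ}) :
    ∃ ρ τ, Z.card ≤ 2 ^ e * Fintype.card T * (Z.filter fun y => R ρ y τ).card := by
  sorry

/-! ## T8: density -/

theorem T8 (q t N : ℕ) (hq : 1 ≤ q) (hN : q - 1 ≤ N) :
    2 ^ (t * N) ≤ 2 ^ ((q - 1) * t) * (univ.filter fun y : Fin t × Fin N → Bool =>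
      ∀ i, q ∣ (univ.filter fun j => y (i, j) = true).card).card := by
  sorry

/-! ## T9: counting modulo `q` as a satisfiability problem -/

theorem T9 (q N n M : ℕ) (hq : 2 ≤ q) (hn : q * (N + 1) ≤ n) (hM : 2 * n ≤ M)
    (T : Set (ZMod q)) :
    ∃ enc : (Fin N → Bool) → (Fin M × Fin n × Bool → Bool),
      (∀ l, (∃ b, ∀ x, enc x l = b) ∨ ∃ j b, ∀ x, enc x l = xor (x j) b) ∧
      (∀ x, Is3 (enc x)) ∧
      ∀ x, Sat (enc x) ↔ (((univ.filter fun j => x j = true).card : ℕ) : ZMod q) ∉ T := by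
  sorry

/-! ## T10: the polynomial method -/

theorem T10 {K : Type*} [Field K] {t N Δ r : ℕ} (ζ : K) (h0 : ζ ≠ 0) (h1 : ζ ≠ 1)
    (S E : Finset (Fin t × Fin N → Bool))
    (hS : ∀ y ∈ S, ∀ i, ∏ j, zz ζ (y (i, j)) = 1) (P : (Fin t × Fin N → Bool) → K)
    (hP : P ∈ LD K (Fin t × Fin N) Δ) (hPE : ∀ y ∉ E, P y = if y ∈ S then 1 else 0)
    (hcard : E.card * 2 ^ (t * N) < S.card * ball (t * N) r) : t * (N - N / 2) ≤ r + Δ := by
  sorry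

/-! ## T11: the main bound -/

theorem T11 {p : ℕ} [Fact p.Prime] {K : Type*} [Field K] [Algebra (ZMod p) K] (ζ : K) {q : ℕ}
    (h0 : ζ ≠ 0) (h1 : ζ ≠ 1) (hζ : ζ ^ q = 1) (hq : 1 ≤ q) {h t N m e s : ℕ} (hN : q - 1 ≤ N)
    {I Ω : Type} [Fintype Ω] [Nonempty Ω] (P : Ω → Protocol I m)
    (hP : ∀ ρ, (P ρ).Small h s) (A : Ω → Set (Fin m → Bool))
    (inst : (Fin t × Fin N → Bool) → I → Bool)
    (hinst : ∀ l, (fun y => (bK (inst y l) : ZMod p)) ∈ LD (ZMod p) (Fin t × Fin N) 1)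
    (hsound : ∀ y ρ τ, (P ρ).Sends p (inst y) τ → τ ∈ A ρ →
      ∀ i, q ∣ (univ.filter fun j => y (i, j) = true).card)
    (hcomp : ∀ y : Fin t × Fin N → Bool,
      (∀ i, q ∣ (univ.filter fun j => y (i, j) = true).card) →
      Fintype.card Ω ≤ 2 ^ e * Nat.card {ρ : Ω // ∀ τ, (P ρ).Sends p (inst y) τ → τ ∈ A ρ})
    (ℓ j L : ℕ) (hℓ : 1 ≤ ℓ) (hℓs : 16 * (s + 1) ≤ p ^ ℓ) (hj : 8 * j ≤ t * N)
    (hL : (t * N + 1) * 2 ^ ((q - 1) * t + e + m + 16 * j ^ 2 / (t * N) + 1) < 2 ^ L) :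
    t * (N - N / 2) ≤ (t * N / 2 - j) + L * ((p - 1) * (ℓ * (p - 1)) ^ (h + 1)) := by
  sorry

/-! ## T12: roots of unity -/

theorem T12 (p : ℕ) [Fact p.Prime] : ∃ q : ℕ, 2 ≤ q ∧ q ≤ 3 ∧
    ∃ ζ : AlgebraicClosure (ZMod p), ζ ≠ 0 ∧ ζ ≠ 1 ∧ ζ ^ q = 1 := by
  sorry

/-! ## T13, T14: arithmetic -/

theorem T13 (p h q : ℕ) (hp : 2 ≤ p) (hq : 2 ≤ q) (hq' : q ≤ 3) : ∃ C : ℕ, ∀ t n m e s : ℕ,
    t * n ≤ s →
    (q - 1 ≤ n / q - 1 → ∀ ℓ j L, 1 ≤ ℓ → 16 * (s + 1) ≤ p ^ ℓ → 8 * j ≤ t * (n / q - 1) →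
      (t * (n / q - 1) + 1) *
        2 ^ ((q - 1) * t + e + m + 16 * j ^ 2 / (t * (n / q - 1)) + 1) < 2 ^ L →
      t * ((n / q - 1) - (n / q - 1) / 2) ≤
        (t * (n / q - 1) / 2 - j) + L * ((p - 1) * (ℓ * (p - 1)) ^ (h + 1))) →
    t * n ≤ C * (m + t + e) * (Nat.log 2 s + 1) ^ (2 * h + 3) := by
  sorry

theorem T14 (h C : ℕ) (ε : ℝ) (hε : 0 < ε) : ∃ δ : ℝ, 0 < δ ∧ ∀ᶠ n : ℕ in Filter.atTop,
    ∀ t m e s : ℕ, (s : ℝ) ≤ 2 ^ ((n : ℝ) ^ δ) →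
      t * n ≤ C * (m + t + e) * (Nat.log 2 s + 1) ^ (2 * h + 3) →
      (t : ℝ) * (n : ℝ) ^ (1 - ε) ≤ m + e := by
  sorry

end Pool.Agent.H820R3.AC
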