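import Pool.Agent.H820R3.AC.Core

namespace Pool.Agent.H820R3.AC

open H746R3.Inv Finset

theorem T1b {K : Type*} [Field K] {t N : ℕ} (ζ : K) (h0 : ζ ≠ 0) (h1 : ζ ≠ 1)
    (g : (Fin t × Fin N → Bool) → K) :
    ∃ g' ∈ LD K (Fin t × Fin N) (t * (N / 2)),
      ∀ y, (∀ i, ∏ j, zz ζ (y (i, j)) = 1) → g' y = g y := by
  classical
  refine Submodule.span_induction (p := fun g _ => ∃ g' ∈ LD K (Fin t × Fin N) (t * (N / 2)),
      ∀ y, (∀ i, ∏ j, zz ζ (y (i, j)) = 1) → g' y = g y) ?_ ?_ ?_ ?_ (mem_span_chi ζ h1 g)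
  · rintro _ ⟨A, rfl⟩
    set F : Fin t → ((Fin t × Fin N) → Bool) → K := fun i =>
      if N / 2 < (sec A i).card then
        ∏ j ∈ univ \ sec A i, (fun x : (Fin t × Fin N) → Bool => (zz ζ (x (i, j)))⁻¹)
      else ∏ j ∈ sec A i, (fun x : (Fin t × Fin N) → Bool => zz ζ (x (i, j))) with hF
    have hFm : ∀ i, F i ∈ LD K (Fin t × Fin N) (N / 2) := by
      intro i
      simp only [hF]
      split_ifs with hi
      · have h2 : ∏ j ∈ univ \ sec A i, (fun x : (Fin t × Fin N) → Bool => (zz ζ (x (i, j)))⁻¹) ∈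
            LD K (Fin t × Fin N) (∑ j ∈ univ \ sec A i, 1) :=
          prod_mem' _ _ (fun _ => 1) fun j _ => bit_mem (fun b => (zz ζ b)⁻¹) (i, j)
        refine LD_mono ?_ h2
        have h3 : (univ \ sec A i).card = N - (sec A i).card := by
          rw [Finset.card_sdiff_of_subset (Finset.subset_univ _)]
          simp
        rw [Finset.sum_const, smul_eq_mul, mul_one, h3]
        omega
      · have h2 : ∏ j ∈ sec A i, (fun x : (Fin t × Fin N) → Bool => zz ζ (x (i, j))) ∈
            LD K (Fin t × Fin N) (∑ j ∈ sec A i, 1) :=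
          prod_mem' _ _ (fun _ => 1) fun j _ => bit_mem (fun b => zz ζ b) (i, j)
        refine LD_mono ?_ h2
        rw [Finset.sum_const, smul_eq_mul, mul_one]
        omega
    refine ⟨∏ i, F i, ?_, ?_⟩
    · have h2 := prod_mem' (univ : Finset (Fin t)) F (fun _ => N / 2) fun i _ => hFm i
      simpa using h2
    · intro y hy
      change (∏ i, F i) y = ∏ v ∈ A, zz ζ (y v)
      rw [prod_sec A, Finset.prod_apply]
      refine Finset.prod_congr rfl fun i _ => ?_
      simp only [hF]
      split_ifs with hi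
      · have hz : ∏ j ∈ univ \ sec A i, (zz ζ (y (i, j)) * (zz ζ (y (i, j)))⁻¹) = 1 := by
          refine Finset.prod_eq_one fun j _ => mul_inv_cancel₀ ?_
          unfold zz
          split_ifs
          · exact h0
          · exact one_ne_zero
        rw [Finset.prod_mul_distrib] at hz
        have h2 := hy i
        rw [← Finset.prod_sdiff (Finset.subset_univ (sec A i))] at h2
        rw [Finset.prod_apply]
        set X := ∏ j ∈ univ \ sec A i, zz ζ (y (i, j))
        set Y := ∏ j ∈ sec A i, zz ζ (y (i, j))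
        set W := ∏ j ∈ univ \ sec A i, (zz ζ (y (i, j)))⁻¹
        calc W = (X * Y) * W := by rw [h2, one_mul]
          _ = (X * W) * Y := by ring
          _ = Y := by rw [hz, one_mul]
      · rw [Finset.prod_apply]
  · exact ⟨0, Submodule.zero_mem _, fun _ _ => rfl⟩
  · rintro a b _ _ ⟨a', ha', ha⟩ ⟨b', hb', hb⟩
    exact ⟨a' + b', Submodule.add_mem _ ha' hb', fun y hy => by
      rw [Pi.add_apply, Pi.add_apply, ha y hy, hb y hy]⟩
  · rintro c a _ ⟨a', ha', ha⟩
    exact ⟨c • a', Submodule.smul_mem _ _ ha', fun y hy => by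
      rw [Pi.smul_apply, Pi.smul_apply, ha y hy]⟩

end Pool.Agent.H820R3.AC
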