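import Pool.Agent.H820R3.AC.Core

namespace Pool.Agent.H820R3.AC

open H746R3.Inv Finset

variable {K : Type*} [Field K] {V : Type*} [Fintype V] [DecidableEq V]

theorem T2a (v : V → Bool) (r : ℕ) (g : (V → Bool) → K) :
    ∃ R ∈ LD K V r, ∀ y : V → Bool, (univ.filter fun i => y i ≠ v i).card ≤ r → R y = g y := by
  -- the monomials centred at `v`
  set m : Finset V → (V → Bool) → K := fun B =>
    ∏ i ∈ B, fun y : V → Bool => (if y i ≠ v i then (1 : K) else 0) with hm
  have hmm : ∀ B, m B ∈ LD K V B.card := by
    intro B
    have h1 := prod_mem' B (fun i => fun y : V → Bool => (if y i ≠ v i then (1 : K) else 0))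
      (fun _ => 1) fun i _ => bit_mem (fun b => if b ≠ v i then (1 : K) else 0) i
    rw [Finset.sum_const, smul_eq_mul, mul_one] at h1
    exact h1
  have hmv : ∀ B y, m B y = if B ⊆ (univ.filter fun i => y i ≠ v i) then 1 else 0 := by
    intro B y
    simp only [hm, Finset.prod_apply]
    split_ifs with h
    · refine Finset.prod_eq_one fun i hi => ?_
      have := (Finset.mem_filter.1 (h hi)).2
      rw [if_pos this]
    · have : ∃ i ∈ B, i ∉ (univ.filter fun i => y i ≠ v i) := by
        by_contra hcon
        push Not at hcon
        exact h hcon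
      obtain ⟨i, hi, hi'⟩ := this
      refine Finset.prod_eq_zero hi ?_
      rw [if_neg]
      intro h'
      exact hi' (Finset.mem_filter.2 ⟨Finset.mem_univ _, h'⟩)
  -- the point at the difference set `B`
  set pt : Finset V → (V → Bool) := fun B i => if i ∈ B then !(v i) else v i with hpt
  have hptd : ∀ y : V → Bool, pt (univ.filter fun i => y i ≠ v i) = y := by
    intro y
    funext i
    simp only [hpt, Finset.mem_filter, Finset.mem_univ, true_and]
    rcases Bool.eq_false_or_eq_true (y i) with h | h <;>
      rcases Bool.eq_false_or_eq_true (v i) with h' | h' <;> simp [h, h']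
  induction r with
  | zero =>
    refine ⟨fun _ => g v, const_mem _ _, ?_⟩
    intro y hy
    have h1 : y = v := by
      funext i
      by_contra hne
      have : 0 < (univ.filter fun i => y i ≠ v i).card :=
        Finset.card_pos.2 ⟨i, Finset.mem_filter.2 ⟨Finset.mem_univ _, hne⟩⟩
      omega
    rw [h1]
  | succ r ih =>
    obtain ⟨R, hR, hRg⟩ := ih
    refine ⟨R + ∑ B ∈ (univ : Finset V).powersetCard (r + 1), (g (pt B) - R (pt B)) • m B,
      Submodule.add_mem _ (LD_mono (Nat.le_succ r) hR) (Submodule.sum_mem _ fun B hB =>
        Submodule.smul_mem _ _ ?_), ?_⟩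
    · have h1 := hmm B
      rwa [(Finset.mem_powersetCard_univ.1 hB)] at h1
    · intro y hy
      rw [Pi.add_apply, Finset.sum_apply]
      set Y := univ.filter fun i => y i ≠ v i with hY
      rcases Nat.lt_or_ge Y.card (r + 1) with hlt | hge
      · rw [Finset.sum_eq_zero, add_zero, hRg y (show Y.card ≤ r by omega)]
        intro B hB
        rw [Pi.smul_apply, hmv, if_neg, smul_zero]
        intro hBY
        have h1 : B.card ≤ Y.card := Finset.card_le_card hBY
        rw [Finset.mem_powersetCard_univ.1 hB] at h1
        omega
      · have hYc : Y.card = r + 1 := le_antisymm hy hge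
        rw [Finset.sum_eq_single Y]
        · rw [Pi.smul_apply, hmv, if_pos (Finset.Subset.refl _), smul_eq_mul, mul_one, hptd y]
          ring
        · intro B hB hne
          rw [Pi.smul_apply, hmv, if_neg, smul_zero]
          intro hBY
          refine hne (Finset.eq_of_subset_of_card_le hBY ?_)
          rw [Finset.mem_powersetCard_univ.1 hB, hYc]
        · intro h
          exact absurd (Finset.mem_powersetCard_univ.2 hYc) h

end Pool.Agent.H820R3.AC
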