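import Pool.Agent.H820R3.AC.Core

namespace Pool.Agent.H820R3.AC

open H746R3.Inv Finset

variable {V : Type*} [Fintype V] [DecidableEq V]

theorem card_ball (r : ℕ) :
    (univ.filter fun B : Finset V => B.card ≤ r).card = ball (Fintype.card V) r := by
  unfold ball
  have h1 : (univ.filter fun B : Finset V => B.card ≤ r) =
      (range (r + 1)).biUnion fun i => (univ : Finset V).powersetCard i := by
    ext B
    simp only [Finset.mem_filter, Finset.mem_univ, true_and, Finset.mem_biUnion, Finset.mem_range,
      Finset.mem_powersetCard_univ]
    constructor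
    · intro h
      exact ⟨B.card, by omega, rfl⟩
    · rintro ⟨i, hi, h⟩
      omega
  rw [h1, Finset.card_biUnion]
  · refine Finset.sum_congr rfl fun i _ => ?_
    rw [Finset.card_powersetCard, Finset.card_univ]
  · intro i _ j _ hij
    rw [Function.onFun, Finset.disjoint_left]
    intro B hB hB'
    rw [Finset.mem_powersetCard_univ] at hB hB'
    exact hij (hB.symm.trans hB')

theorem T2b (S : Finset (V → Bool)) (r : ℕ) :
    ∃ v : V → Bool, S.card * ball (Fintype.card V) r ≤ 2 ^ Fintype.card V *
      (S.filter fun y => (univ.filter fun i => y i ≠ v i).card ≤ r).card := by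
  by_contra hcon
  push Not at hcon
  have h1 : ∑ _v : V → Bool, S.card * ball (Fintype.card V) r =
      2 ^ Fintype.card V * (S.card * ball (Fintype.card V) r) := by
    rw [Finset.sum_const, Finset.card_univ, Fintype.card_fun, Fintype.card_bool, smul_eq_mul]
  have h2 : ∑ v : V → Bool, (S.filter fun y => (univ.filter fun i => y i ≠ v i).card ≤ r).card =
      S.card * ball (Fintype.card V) r := by
    have e1 : ∑ v : V → Bool,
        (S.filter fun y => (univ.filter fun i => y i ≠ v i).card ≤ r).card =
        ∑ y ∈ S, (univ.filter fun v : V → Bool =>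
          (univ.filter fun i => y i ≠ v i).card ≤ r).card := by
      simp only [Finset.card_filter]
      exact Finset.sum_comm
    rw [e1, ← smul_eq_mul, ← Finset.sum_const]
    refine Finset.sum_congr rfl fun y _ => ?_
    rw [← card_ball]
    refine Finset.card_bij (fun v _ => univ.filter fun i => y i ≠ v i) ?_ ?_ ?_
    · intro v hv
      simpa using hv
    · intro v _ v' _ hvv
      funext i
      have h3 : (y i ≠ v i) ↔ (y i ≠ v' i) := by
        have h4 := Finset.ext_iff.1 hvv i
        simpa using h4
      revert h3
      cases y i <;> cases v i <;> cases v' i <;> simp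
    · intro B hB
      refine ⟨fun i => if i ∈ B then !(y i) else y i, ?_, ?_⟩
      · have h3 : (univ.filter fun i => y i ≠ if i ∈ B then !(y i) else y i) = B := by
          ext i
          by_cases hi : i ∈ B <;> simp [hi]
        rw [Finset.mem_filter]
        refine ⟨Finset.mem_univ _, ?_⟩
        rw [h3]
        exact (Finset.mem_filter.1 hB).2
      · ext i
        by_cases hi : i ∈ B <;> simp [hi]
  have h3 := Finset.sum_lt_sum_of_nonempty (s := (univ : Finset (V → Bool)))
    Finset.univ_nonempty fun v _ => hcon v
  rw [← Finset.mul_sum, h2, h1] at h3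
  exact lt_irrefl _ h3

end Pool.Agent.H820R3.AC
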