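import Pool.Agent.H820R3.AC.Core

namespace Pool.Agent.H820R3.AC

open H746R3.Inv Finset

variable {K : Type*} [Field K] {V : Type*} [Fintype V] [DecidableEq V]

theorem T2c (r : ℕ) (S E : Finset (V → Bool)) (hES : E.card < S.card)
    (hS : ∀ g : (V → Bool) → K, ∃ R ∈ LD K V r, ∀ y ∈ S, R y = g y) :
    ∃ R ∈ LD K V r, (∀ y ∈ E, R y = 0) ∧ ∃ y ∈ S, R y ≠ 0 := by
  classical
  choose F hF hFS using fun s : S => hS (fun y => if y = s then (1 : K) else 0)
  set w : S → (E → K) := fun s e => F s e with hw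
  have hdep : ¬ LinearIndependent K w := by
    intro h
    have h1 := h.fintype_card_le_finrank
    rw [Module.finrank_fintype_fun_eq_card, Fintype.card_coe, Fintype.card_coe] at h1
    omega
  rw [Fintype.not_linearIndependent_iff] at hdep
  obtain ⟨c, hc, s0, hs0⟩ := hdep
  refine ⟨∑ s, c s • F s, Submodule.sum_mem _ fun s _ => Submodule.smul_mem _ _ (hF s), ?_, ?_⟩
  · intro y hy
    have h1 := congrFun hc ⟨y, hy⟩
    rw [Finset.sum_apply] at h1 ⊢
    simpa [hw] using h1
  · refine ⟨s0, s0.2, ?_⟩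
    rw [Finset.sum_apply, Finset.sum_eq_single s0]
    · rw [Pi.smul_apply, hFS s0 s0 s0.2, if_pos rfl, smul_eq_mul, mul_one]
      exact hs0
    · intro s _ hs
      rw [Pi.smul_apply, hFS s s0 s0.2, if_neg (fun h => hs (Subtype.ext h.symm)), smul_zero]
    · intro h
      exact absurd (Finset.mem_univ _) h

end Pool.Agent.H820R3.AC
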