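import Pool.Agent.H820R3.AC.T1a
import Pool.Agent.H820R3.AC.T1b
import Pool.Agent.H820R3.AC.T2a
import Pool.Agent.H820R3.AC.T2b
import Pool.Agent.H820R3.AC.T2c

namespace Pool.Agent.H820R3.AC

open H746R3.Inv Finset

variable {K : Type*} [Field K]

theorem T1 {t N d : ℕ} (ζ : K) (h0 : ζ ≠ 0) (h1 : ζ ≠ 1) (Q : (Fin t × Fin N → Bool) → K)
    (hQ : Q ∈ LD K (Fin t × Fin N) d) (hne : ∃ y, Q y ≠ 0)
    (hZ : ∀ y, Q y ≠ 0 → ∀ i, ∏ j, zz ζ (y (i, j)) = 1) : t * (N - N / 2) ≤ d := by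
  classical
  obtain ⟨y0, hy0⟩ := hne
  obtain ⟨g, hg, hgZ⟩ := T1b ζ h0 h1 (fun y : Fin t × Fin N → Bool => if y = y0 then (1 : K) else 0)
  have hm := mul_mem hg hQ
  by_contra hcon
  push Not at hcon
  have hlt : t * (N / 2) + d < Fintype.card (Fin t × Fin N) := by
    simp only [Fintype.card_prod, Fintype.card_fin]
    have h3 : t * N = t * (N / 2) + t * (N - N / 2) := by
      rw [← Nat.mul_add]
      congr 1
      omega
    omega
  have hs := T1a hm hlt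
  rw [Finset.sum_eq_single y0] at hs
  · rw [Pi.mul_apply, hgZ y0 (hZ y0 hy0), if_pos rfl, one_mul] at hs
    rcases mul_eq_zero.1 hs with h | h
    · exact (pow_ne_zero _ (by simp : (-1 : K) ≠ 0)) h
    · exact hy0 h
  · intro y _ hy
    rw [Pi.mul_apply]
    by_cases hQy : Q y = 0
    · rw [hQy]; simp
    · rw [hgZ y (hZ y hQy), if_neg hy]; simp
  · intro h
    exact absurd (Finset.mem_univ _) h

theorem T10 {t N Δ r : ℕ} (ζ : K) (h0 : ζ ≠ 0) (h1 : ζ ≠ 1)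
    (S E : Finset (Fin t × Fin N → Bool))
    (hS : ∀ y ∈ S, ∀ i, ∏ j, zz ζ (y (i, j)) = 1) (P : (Fin t × Fin N → Bool) → K)
    (hP : P ∈ LD K (Fin t × Fin N) Δ) (hPE : ∀ y ∉ E, P y = if y ∈ S then 1 else 0)
    (hcard : E.card * 2 ^ (t * N) < S.card * ball (t * N) r) : t * (N - N / 2) ≤ r + Δ := by
  classical
  have hcV : Fintype.card (Fin t × Fin N) = t * N := by simp
  obtain ⟨v, hv⟩ := T2b S r
  rw [hcV] at hv
  set S' := S.filter fun y => (univ.filter fun i => y i ≠ v i).card ≤ r with hS'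
  have hlt : E.card < S'.card := by
    have h2 := hcard.trans_le hv
    rw [mul_comm] at h2
    exact Nat.lt_of_mul_lt_mul_left h2
  obtain ⟨R, hR, hRE, y0, hy0, hRy0⟩ := T2c (K := K) r S' E hlt (fun g => by
    obtain ⟨R, hR, hRg⟩ := T2a (K := K) v r g
    exact ⟨R, hR, fun y hy => hRg y (Finset.mem_filter.1 hy).2⟩)
  have hy0S : y0 ∈ S := (Finset.mem_filter.1 hy0).1
  have hy0E : y0 ∉ E := fun h => hRy0 (hRE y0 h)
  refine T1 ζ h0 h1 (R * P) (mul_mem hR hP) ⟨y0, ?_⟩ ?_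
  · rw [Pi.mul_apply, hPE y0 hy0E, if_pos hy0S, mul_one]
    exact hRy0
  · intro y hy
    rw [Pi.mul_apply] at hy
    have hyE : y ∉ E := by
      intro h
      apply hy
      rw [hRE y h, zero_mul]
    by_cases hyS : y ∈ S
    · exact hS y hyS
    · exfalso
      apply hy
      rw [hPE y hyE, if_neg hyS, mul_zero]

end Pool.Agent.H820R3.AC
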