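import Pool.Agent.H820R3.AC.Core

namespace Pool.Agent.H820R3.AC

open H746R3.Inv Finset Pool.Agent.H559R4

theorem T3_mid (n : ℕ) : 2 ^ n ≤ (n + 1) * n.choose (n / 2) := by
  calc 2 ^ n = ∑ i ∈ range (n + 1), n.choose i := (Nat.sum_range_choose n).symm
    _ ≤ ∑ i ∈ range (n + 1), n.choose (n / 2) :=
        Finset.sum_le_sum fun i _ => Nat.choose_le_middle i n
    _ = (n + 1) * n.choose (n / 2) := by simp

/-- one step down -/
theorem T3_step (n j i : ℕ) (hn : 0 < n) (hj : 8 * j ≤ n) (hi : i < j) :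
    (n.choose (n / 2 - i) : ℝ) * (1 - 4 * j / n) ≤ n.choose (n / 2 - (i + 1)) := by
  have h1 : 1 ≤ n / 2 - i := by omega
  obtain ⟨k, hk⟩ : ∃ k, n / 2 - i = k + 1 := ⟨n / 2 - i - 1, by omega⟩
  have hk2 : n / 2 - (i + 1) = k := by omega
  rw [hk, hk2]
  have h2 := Nat.choose_succ_right_eq n k
  have hkn : k ≤ n := by omega
  have h3 : (n.choose (k + 1) : ℝ) * (k + 1) = n.choose k * (n - k) := by
    have : ((n.choose (k + 1) * (k + 1) : ℕ) : ℝ) = ((n.choose k * (n - k) : ℕ) : ℝ) := by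
      rw [h2]
    push_cast [Nat.cast_sub hkn] at this
    exact this
  have hnk : (0 : ℝ) < n - k := by
    have : k < n := by omega
    have : (k : ℝ) < n := by exact_mod_cast this
    linarith
  have hn0 : (0 : ℝ) < n := by exact_mod_cast hn
  have h4 : (n.choose k : ℝ) = n.choose (k + 1) * ((k + 1) / (n - k)) := by
    field_simp
    linarith
  rw [h4]
  apply mul_le_mul_of_nonneg_left _ (Nat.cast_nonneg _)
  rw [sub_le_iff_le_add, ← sub_le_iff_le_add', le_div_iff₀ hn0]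
  have h5 : 1 - ((k : ℝ) + 1) / (n - k) = (n - 2 * k - 1) / (n - k) := by
    field_simp
    ring
  rw [h5, div_mul_eq_mul_div, div_le_iff₀ hnk]
  -- n - 2k - 1 ≤ 2 j, n ≤ 2 (n-k)
  have h6 : (n : ℝ) - 2 * k - 1 ≤ 2 * j := by
    have : n ≤ 2 * k + 1 + 2 * j := by omega
    have : (n : ℝ) ≤ 2 * k + 1 + 2 * j := by exact_mod_cast this
    linarith
  have h7 : (n : ℝ) ≤ 2 * (n - k) := by
    have : 2 * k ≤ n := by omega
    have : 2 * (k : ℝ) ≤ n := by exact_mod_cast this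
    linarith
  have hj0 : (0 : ℝ) ≤ j := Nat.cast_nonneg _
  calc ((n : ℝ) - 2 * k - 1) * n ≤ 2 * j * n := by gcongr
    _ ≤ 2 * j * (2 * (n - k)) := by gcongr
    _ = 4 * j * (n - k) := by ring

theorem T3_down (n j : ℕ) (hn : 0 < n) (hj : 8 * j ≤ n) (i : ℕ) (hi : i ≤ j) :
    (n.choose (n / 2) : ℝ) * (1 - 4 * j / n) ^ i ≤ n.choose (n / 2 - i) := by
  have hn0 : (0 : ℝ) < n := by exact_mod_cast hn
  have hx : 0 ≤ 1 - 4 * (j : ℝ) / n := by
    rw [sub_nonneg, div_le_one hn0]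
    have : 8 * (j : ℝ) ≤ n := by exact_mod_cast hj
    have : (0 : ℝ) ≤ j := Nat.cast_nonneg _
    linarith
  induction i with
  | zero => simp
  | succ i ih =>
    have h1 := ih (by omega)
    have h2 := T3_step n j i hn hj (by omega)
    calc (n.choose (n / 2) : ℝ) * (1 - 4 * j / n) ^ (i + 1)
        = (n.choose (n / 2) : ℝ) * (1 - 4 * j / n) ^ i * (1 - 4 * j / n) := by ring
      _ ≤ n.choose (n / 2 - i) * (1 - 4 * j / n) := by gcongr
      _ ≤ _ := h2

theorem T3_exp (x : ℝ) (hx0 : 0 ≤ x) (hx : x ≤ 1 / 2) : Real.exp (-(2 * x)) ≤ 1 - x := by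
  have h1 : 1 + 2 * x ≤ Real.exp (2 * x) := by
    have := Real.add_one_le_exp (2 * x)
    linarith
  have h2 : 1 ≤ (1 - x) * Real.exp (2 * x) := by
    have : (1 - x) * (1 + 2 * x) ≤ (1 - x) * Real.exp (2 * x) := by
      apply mul_le_mul_of_nonneg_left h1 (by linarith)
    nlinarith
  rw [Real.exp_neg, inv_eq_one_div, div_le_iff₀ (Real.exp_pos _)]
  exact h2

theorem T3 (n j : ℕ) (hj : 8 * j ≤ n) :
    2 ^ n ≤ (n + 1) * 2 ^ (16 * j ^ 2 / n + 1) * ball n (n / 2 - j) := by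
  rcases Nat.eq_zero_or_pos n with hn | hn
  · subst hn
    have : j = 0 := by omega
    subst this
    simp [ball]
  have hn0 : (0 : ℝ) < n := by exact_mod_cast hn
  have h1 : (n.choose (n / 2) : ℝ) ≤ 2 ^ (16 * j ^ 2 / n + 1) * n.choose (n / 2 - j) := by
    have h2 := T3_down n j hn hj j le_rfl
    have hx0 : 0 ≤ 4 * (j : ℝ) / n := by positivity
    have hx : 4 * (j : ℝ) / n ≤ 1 / 2 := by
      rw [div_le_iff₀ hn0]
      have : 8 * (j : ℝ) ≤ n := by exact_mod_cast hj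
      linarith
    have h3 := T3_exp _ hx0 hx
    have h4 : Real.exp (-(8 * (j : ℝ) ^ 2 / n)) ≤ (1 - 4 * (j : ℝ) / n) ^ j := by
      have e1 : -(8 * (j : ℝ) ^ 2 / n) = j * (-(2 * (4 * (j : ℝ) / n))) := by
        field_simp
        ring
      rw [e1, Real.exp_nat_mul]
      exact pow_le_pow_left₀ (Real.exp_pos _).le h3 j
    have h5 : (n.choose (n / 2) : ℝ) * Real.exp (-(8 * (j : ℝ) ^ 2 / n)) ≤ n.choose (n / 2 - j) :=
      le_trans (by gcongr) h2
    have h6 : Real.exp (8 * (j : ℝ) ^ 2 / n) ≤ 2 ^ (16 * j ^ 2 / n + 1) := by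
      have e1 : Real.exp 1 ≤ 4 := by
        have := Real.exp_one_lt_d9
        linarith
      have e2 : (8 * (j : ℝ) ^ 2 / n) = 1 * (8 * (j : ℝ) ^ 2 / n) := by ring
      have e3 : (4 : ℝ) = 2 ^ (2 : ℝ) := by norm_num
      calc Real.exp (8 * (j : ℝ) ^ 2 / n) = Real.exp 1 ^ (8 * (j : ℝ) ^ 2 / n) := by
            rw [← Real.exp_mul, one_mul]
        _ ≤ 4 ^ (8 * (j : ℝ) ^ 2 / n) := by
            apply Real.rpow_le_rpow (Real.exp_pos _).le e1 (by positivity)
        _ = 2 ^ (16 * (j : ℝ) ^ 2 / n) := by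
            rw [e3, ← Real.rpow_mul (by norm_num)]
            congr 1
            ring
        _ ≤ 2 ^ (((16 * j ^ 2 / n + 1 : ℕ)) : ℝ) := by
            apply Real.rpow_le_rpow_of_exponent_le (by norm_num)
            rw [div_le_iff₀ hn0]
            have h7 : 16 * j ^ 2 < (16 * j ^ 2 / n + 1) * n := by
              have := Nat.lt_div_mul_add (a := 16 * j ^ 2) (b := n) hn
              calc 16 * j ^ 2 < 16 * j ^ 2 / n * n + n := this
                _ = _ := by ring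
            exact_mod_cast h7.le
        _ = _ := by rw [Real.rpow_natCast]
    have h7 : (n.choose (n / 2) : ℝ) = n.choose (n / 2) * Real.exp (-(8 * (j : ℝ) ^ 2 / n))
        * Real.exp (8 * (j : ℝ) ^ 2 / n) := by
      rw [mul_assoc, ← Real.exp_add, neg_add_cancel, Real.exp_zero, mul_one]
    rw [h7]
    calc _ ≤ (n.choose (n / 2 - j) : ℝ) * 2 ^ (16 * j ^ 2 / n + 1) := by gcongr
      _ = _ := mul_comm _ _
  have h1' : n.choose (n / 2) ≤ 2 ^ (16 * j ^ 2 / n + 1) * n.choose (n / 2 - j) := by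
    exact_mod_cast h1
  have h2 : n.choose (n / 2 - j) ≤ ball n (n / 2 - j) := by
    unfold ball
    exact Finset.single_le_sum (f := fun i => n.choose i) (fun _ _ => Nat.zero_le _)
      (Finset.self_mem_range_succ _)
  calc 2 ^ n ≤ (n + 1) * n.choose (n / 2) := T3_mid n
    _ ≤ (n + 1) * (2 ^ (16 * j ^ 2 / n + 1) * n.choose (n / 2 - j)) := by gcongr
    _ ≤ (n + 1) * (2 ^ (16 * j ^ 2 / n + 1) * ball n (n / 2 - j)) := by gcongr
    _ = _ := by ring

end Pool.Agent.H820R3.AC
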