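import Pool.Agent.H820R3.AC.T4a

namespace Pool.Agent.H820R3.AC

open H746R3.Inv Finset

variable {p : ℕ} [Fact p.Prime] {V : Type} [Fintype V] [DecidableEq V]

omit [Fintype V] in
theorem PP.not {D ℓ e : ℕ} {f : (V → Bool) → Bool} (hf : PP p D ℓ e f) :
    PP p D ℓ e (fun y => !(f y)) := by
  obtain ⟨Ω, hΩ, P, hΩ0, hP, hPy⟩ := hf
  refine ⟨Ω, hΩ, fun ω => 1 - P ω, hΩ0,
    fun ω => Submodule.sub_mem _ (H746R3.Inv.one_mem _) (hP ω), ?_⟩
  intro y
  refine le_trans (Nat.mul_le_mul_right _ (Finset.card_le_card ?_)) (hPy y)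
  intro ω hω
  rw [Finset.mem_filter] at hω ⊢
  refine ⟨hω.1, fun h => hω.2 ?_⟩
  change 1 - P ω y = bK (!(f y))
  rw [h]
  rcases Bool.eq_false_or_eq_true (f y) with h | h <;> simp [h]

omit [Fintype V] in
theorem PP.mono_e {D ℓ e e' : ℕ} {f : (V → Bool) → Bool} (hf : PP p D ℓ e f) (he : e ≤ e') :
    PP p D ℓ e' f := by
  obtain ⟨Ω, hΩ, P, hΩ0, hP, hPy⟩ := hf
  exact ⟨Ω, hΩ, P, hΩ0, hP, fun y => (hPy y).trans (Nat.mul_le_mul_right _ he)⟩

theorem computes_iff {I : Type} (C : Circuit I Unit) (x : I → Bool) (b : Bool) :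
    (C.Computes p x fun _ => b) ↔ C.wire x (C.run p x) (C.out ()) = b := by
  constructor
  · rintro ⟨v, hv, hb⟩
    rw [← C.run_unique p x v hv]
    exact (hb ()).symm
  · intro h
    exact ⟨C.run p x, C.run_isRun p x, fun _ => h.symm⟩

open Classical in
theorem T4c {I : Type} {m : ℕ} (P : Protocol I m) (h s ℓ : ℕ) (hℓ : 1 ≤ ℓ) (hP : P.Small h s)
    (inst : (V → Bool) → I → Bool)
    (hinst : ∀ l, (fun y => (bK (inst y l) : ZMod p)) ∈ LD (ZMod p) V 1) (τ : Fin m → Bool) :
    PP p ((ℓ * (p - 1)) ^ (h + 1)) ℓ (s + 1)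
      (fun y : V → Bool => decide (P.Sends p (inst y) τ)) := by
  obtain ⟨hPd, hPw, hPs⟩ := hP
  set inp : ∀ i : Fin m, (I ⊕ Fin P.B) → (V → Bool) → Bool := fun i l y =>
    Sum.elim (inst y) (P.bob i fun j => τ (Fin.castLE i.2.le j)) l with hinp
  have hinpm : ∀ i l, (fun y => (bK (inp i l y) : ZMod p)) ∈ LD (ZMod p) V 1 := by
    intro i l
    rcases l with l | b
    · exact hinst l
    · exact H746R3.Inv.const_mem (V := V)
        (bK ((P.bob i fun j => τ (Fin.castLE i.2.le j)) b) : ZMod p) 1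
  set w : Fin m → (V → Bool) → Bool := fun i y =>
    (P.alice i).wire (fun l => inp i l y) ((P.alice i).run p fun l => inp i l y)
      ((P.alice i).out ()) with hw
  have hwPP : ∀ i, PP p ((ℓ * (p - 1)) ^ h) ℓ (P.alice i).G (w i) := by
    intro i
    refine T4a (P.alice i) h ℓ hℓ (hPd i) (hPw i) (inp i) (hinpm i) (w i) ?_
    intro y
    rw [computes_iff]
  set f : Fin m → (V → Bool) → Bool := fun i y => if τ i then w i y else !(w i y) with hf
  have hfPP : ∀ i, PP p ((ℓ * (p - 1)) ^ h) ℓ (P.alice i).G (f i) := by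
    intro i
    rcases Bool.eq_false_or_eq_true (τ i) with h | h
    · have : f i = w i := by
        funext y
        simp [hf, h]
      rw [this]
      exact hwPP i
    · have : f i = fun y => !(w i y) := by
        funext y
        simp [hf, h]
      rw [this]
      exact (hwPP i).not
  have h1 := T4b ((ℓ * (p - 1)) ^ h) ℓ hℓ (fun i => (P.alice i).G) f hfPP
  have h2 : ℓ * (p - 1) * (ℓ * (p - 1)) ^ h = (ℓ * (p - 1)) ^ (h + 1) := by
    rw [pow_succ]; ring
  rw [h2] at h1
  have h3 : (fun y : V → Bool => decide (P.Sends p (inst y) τ)) =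
      fun y => decide (∀ i, f i y = true) := by
    funext y
    refine decide_eq_decide.2 ?_
    unfold Protocol.Sends
    refine forall_congr' fun i => ?_
    rw [computes_iff]
    have h4 : (Sum.elim (inst y) (P.bob i fun j => τ (Fin.castLE i.2.le j)) :
        I ⊕ Fin P.B → Bool) = fun l => inp i l y := rfl
    rw [h4]
    have h5 : (P.alice i).wire (fun l => inp i l y) ((P.alice i).run p fun l => inp i l y)
      ((P.alice i).out ()) = w i y := rfl
    rw [h5]
    simp only [hf]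
    rcases Bool.eq_false_or_eq_true (τ i) with h | h <;> simp [h]
  rw [h3]
  have h4 := h1.mono_e (Nat.add_le_add_right hPs 1)
  convert h4

end Pool.Agent.H820R3.AC
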