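import Pool.Agent.H820R3.AC.Core

namespace Pool.Agent.H820R3.AC

open H746R3.Inv Finset

theorem T5b {Ω : Type*} [Fintype Ω] [DecidableEq Ω] (L : ℕ) (B : Finset Ω)
    (hB : 16 * B.card ≤ Fintype.card Ω) :
    (univ.filter fun ω : Fin L → Ω => L ≤ 2 * (univ.filter fun i => ω i ∈ B).card).card * 2 ^ L ≤
      Fintype.card Ω ^ L := by
  set q := Fintype.card Ω with hq
  -- the vectors with all coordinates of `T` in `B`
  set G : Finset (Fin L) → Finset (Fin L → Ω) := fun T =>
    Fintype.piFinset fun i => if i ∈ T then B else univ with hG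
  have hGc : ∀ T : Finset (Fin L), (G T).card = B.card ^ T.card * q ^ (L - T.card) := by
    intro T
    simp only [hG]
    rw [Fintype.card_piFinset]
    have h1 : ∀ i : Fin L, (if i ∈ T then B else (univ : Finset Ω)).card =
        if i ∈ T then B.card else q := by
      intro i
      split_ifs
      · rfl
      · rw [Finset.card_univ]
    simp only [h1]
    rw [Finset.prod_ite]
    simp only [Finset.prod_const]
    congr 2
    · congr 1
      ext i
      simp
    · have h2 : (univ.filter fun i : Fin L => i ∉ T) = Tᶜ := by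
        ext i; simp
      rw [h2, Finset.card_compl, Fintype.card_fin]
  have hsub : (univ.filter fun ω : Fin L → Ω => L ≤ 2 * (univ.filter fun i => ω i ∈ B).card) ⊆
      (univ.filter fun T : Finset (Fin L) => L ≤ 2 * T.card).biUnion G := by
    intro ω hω
    rw [Finset.mem_filter] at hω
    rw [Finset.mem_biUnion]
    refine ⟨univ.filter fun i => ω i ∈ B, Finset.mem_filter.2 ⟨Finset.mem_univ _, hω.2⟩, ?_⟩
    simp only [hG]
    rw [Fintype.mem_piFinset]
    intro i
    by_cases hi : ω i ∈ B
    · have h1 : i ∈ univ.filter fun i => ω i ∈ B := Finset.mem_filter.2 ⟨Finset.mem_univ _, hi⟩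
      rw [if_pos h1]
      exact hi
    · have h1 : i ∉ univ.filter fun i => ω i ∈ B := fun h => hi (Finset.mem_filter.1 h).2
      rw [if_neg h1]
      exact Finset.mem_univ _
  have hT : ∀ T ∈ (univ.filter fun T : Finset (Fin L) => L ≤ 2 * T.card),
      (G T).card * 4 ^ L ≤ q ^ L := by
    intro T hT
    have hT2 := (Finset.mem_filter.1 hT).2
    have hTL : T.card ≤ L := by
      simpa using Finset.card_le_univ T
    rw [hGc]
    calc B.card ^ T.card * q ^ (L - T.card) * 4 ^ L
        ≤ B.card ^ T.card * q ^ (L - T.card) * 4 ^ (2 * T.card) :=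
          Nat.mul_le_mul_left _ (Nat.pow_le_pow_right (by norm_num) hT2)
      _ = (16 * B.card) ^ T.card * q ^ (L - T.card) := by
          rw [pow_mul, mul_pow]; norm_num; ring
      _ ≤ q ^ T.card * q ^ (L - T.card) :=
          Nat.mul_le_mul_right _ (Nat.pow_le_pow_left hB _)
      _ = q ^ L := by
          rw [← pow_add]
          congr 1
          omega
  have h1 : (univ.filter fun ω : Fin L → Ω =>
      L ≤ 2 * (univ.filter fun i => ω i ∈ B).card).card * 4 ^ L ≤ 2 ^ L * q ^ L := by
    calc _ ≤ ((univ.filter fun T : Finset (Fin L) => L ≤ 2 * T.card).biUnion G).card * 4 ^ L :=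
          Nat.mul_le_mul_right _ (Finset.card_le_card hsub)
      _ ≤ (∑ T ∈ (univ.filter fun T : Finset (Fin L) => L ≤ 2 * T.card), (G T).card) * 4 ^ L :=
          Nat.mul_le_mul_right _ Finset.card_biUnion_le
      _ = ∑ T ∈ (univ.filter fun T : Finset (Fin L) => L ≤ 2 * T.card), (G T).card * 4 ^ L := by
          rw [Finset.sum_mul]
      _ ≤ ∑ T ∈ (univ.filter fun T : Finset (Fin L) => L ≤ 2 * T.card), q ^ L :=
          Finset.sum_le_sum hT
      _ ≤ ∑ _T : Finset (Fin L), q ^ L :=
          Finset.sum_le_sum_of_subset (Finset.filter_subset _ _)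
      _ = 2 ^ L * q ^ L := by
          rw [Finset.sum_const, Finset.card_univ, Fintype.card_finset, Fintype.card_fin,
            smul_eq_mul]
  have h4 : (4 : ℕ) ^ L = 2 ^ L * 2 ^ L := by
    rw [← mul_pow]; norm_num
  rw [h4, ← mul_assoc, mul_comm _ (2 ^ L)] at h1
  exact Nat.le_of_mul_le_mul_left h1 (Nat.pow_pos (by norm_num))

end Pool.Agent.H820R3.AC
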