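import Pool.Agent.H820R3.AC.T5a
import Pool.Agent.H820R3.AC.T5b

namespace Pool.Agent.H820R3.AC

open H746R3.Inv Finset

theorem T5c {p : ℕ} [Fact p.Prime] {V : Type} [Fintype V] [DecidableEq V] {D ℓ e : ℕ}
    {f : (V → Bool) → Bool} (hf : PP p D ℓ e f) (he : 16 * e ≤ p ^ ℓ) (L : ℕ) :
    ∃ P ∈ LD (ZMod p) V (L * ((p - 1) * D)), ∃ E : Finset (V → Bool),
      E.card * 2 ^ L ≤ 2 ^ Fintype.card V ∧ ∀ y ∉ E, P y = bK (f y) := by
  classical
  obtain ⟨Ω, hΩ, P, hΩ0, hP, hPy⟩ := hf
  have hp : 1 < p := (Fact.out : p.Prime).one_lt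
  have hpl : 0 < p ^ ℓ := Nat.pow_pos (by omega)
  -- the Booleanised copies
  set b : (Fin L → Ω) → Fin L → (V → Bool) → Bool := fun ω i y => decide (P (ω i) y ≠ 0) with hb
  have hbm : ∀ ω i, (fun y => (bK (b ω i y) : ZMod p)) ∈ LD (ZMod p) V ((p - 1) * D) := by
    intro ω i
    have h1 : (fun y => (bK (b ω i y) : ZMod p)) = P (ω i) ^ (p - 1) := by
      funext y
      rw [Pi.pow_apply]
      by_cases h : P (ω i) y = 0
      · rw [h, zero_pow (by omega)]
        simp [hb, h]
      · rw [ZMod.pow_card_sub_one_eq_one h]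
        simp [hb, h]
    rw [h1]
    exact pow_mem' (hP _) _
  set maj : (Fin L → Bool) → Bool := fun c =>
    decide (L < 2 * (univ.filter fun i => c i = true).card) with hmaj
  have hbad : ∀ (y : V → Bool) (ω : Fin L → Ω), maj (fun i => b ω i y) ≠ f y →
      L ≤ 2 * (univ.filter fun i => ω i ∈ univ.filter fun ω => P ω y ≠ bK (f y)).card := by
    intro y ω hne
    by_contra hcon
    push Not at hcon
    apply hne
    set W := univ.filter fun i => ω i ∈ univ.filter fun ω => P ω y ≠ bK (f y) with hW
    have hgood : ∀ i, i ∉ W → b ω i y = f y := by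
      intro i hi
      have h1 : P (ω i) y = bK (f y) := by
        by_contra h
        exact hi (Finset.mem_filter.2 ⟨Finset.mem_univ _,
          Finset.mem_filter.2 ⟨Finset.mem_univ _, h⟩⟩)
      simp only [hb, h1]
      rcases Bool.eq_false_or_eq_true (f y) with h | h <;> simp [h]
    have hWc : W.card ≤ L := by simpa using Finset.card_le_univ W
    rcases Bool.eq_false_or_eq_true (f y) with h | h
    · have h1 : Wᶜ ⊆ univ.filter fun i => b ω i y = true := by
        intro i hi
        rw [Finset.mem_compl] at hi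
        exact Finset.mem_filter.2 ⟨Finset.mem_univ _, (hgood i hi).trans h⟩
      have h2 := Finset.card_le_card h1
      rw [Finset.card_compl, Fintype.card_fin] at h2
      rw [h]
      simp only [hmaj]
      rw [decide_eq_true_iff]
      omega
    · have h1 : (univ.filter fun i => b ω i y = true) ⊆ W := by
        intro i hi
        by_contra hiW
        have h2 := hgood i hiW
        rw [(Finset.mem_filter.1 hi).2, h] at h2
        exact Bool.noConfusion h2
      have h2 := Finset.card_le_card h1
      rw [h]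
      simp only [hmaj]
      rw [decide_eq_false_iff_not]
      omega
  have hcount : ∀ y : V → Bool,
      (univ.filter fun ω : Fin L → Ω => maj (fun i => b ω i y) ≠ f y).card * 2 ^ L ≤
        Fintype.card Ω ^ L := by
    intro y
    have h16 : 16 * (univ.filter fun ω => P ω y ≠ bK (f y)).card ≤ Fintype.card Ω := by
      have h1 := hPy y
      have h2 : 16 * (univ.filter fun ω => P ω y ≠ bK (f y)).card * p ^ ℓ ≤
          Fintype.card Ω * p ^ ℓ := by
        calc 16 * (univ.filter fun ω => P ω y ≠ bK (f y)).card * p ^ ℓ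
            = 16 * ((univ.filter fun ω => P ω y ≠ bK (f y)).card * p ^ ℓ) := by ring
          _ ≤ 16 * (e * Fintype.card Ω) := Nat.mul_le_mul_left _ h1
          _ = (16 * e) * Fintype.card Ω := by ring
          _ ≤ p ^ ℓ * Fintype.card Ω := Nat.mul_le_mul_right _ he
          _ = _ := by ring
      exact Nat.le_of_mul_le_mul_right h2 hpl
    have h3 := T5b L (univ.filter fun ω => P ω y ≠ bK (f y)) h16
    refine le_trans (Nat.mul_le_mul_right _ (Finset.card_le_card ?_)) h3
    intro ω hω
    exact Finset.mem_filter.2 ⟨Finset.mem_univ _, hbad y ω (Finset.mem_filter.1 hω).2⟩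
  -- a good choice
  obtain ⟨ω, hω⟩ : ∃ ω : Fin L → Ω,
      (univ.filter fun y : V → Bool => maj (fun i => b ω i y) ≠ f y).card * 2 ^ L ≤
        2 ^ Fintype.card V := by
    by_contra hcon
    push Not at hcon
    have hne : (univ : Finset (Fin L → Ω)).Nonempty := by
      rw [Finset.univ_nonempty_iff]
      have : Nonempty Ω := Fintype.card_pos_iff.1 hΩ0
      infer_instance
    have h1 := Finset.sum_lt_sum_of_nonempty hne fun ω _ => hcon ω
    rw [← Finset.sum_mul] at h1
    have h2 : ∑ ω : Fin L → Ω,
        (univ.filter fun y : V → Bool => maj (fun i => b ω i y) ≠ f y).card =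
        ∑ y : V → Bool,
          (univ.filter fun ω : Fin L → Ω => maj (fun i => b ω i y) ≠ f y).card := by
      simp only [Finset.card_filter]
      exact Finset.sum_comm
    rw [h2, Finset.sum_mul] at h1
    have h3 : ∑ y : V → Bool,
        (univ.filter fun ω : Fin L → Ω => maj (fun i => b ω i y) ≠ f y).card * 2 ^ L ≤
        ∑ _y : V → Bool, Fintype.card Ω ^ L := Finset.sum_le_sum fun y _ => hcount y
    have h4 := h1.trans_le h3
    simp only [Finset.sum_const, Finset.card_univ, Fintype.card_fun, Fintype.card_bool,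
      Fintype.card_fin, smul_eq_mul] at h4
    rw [mul_comm] at h4
    exact lt_irrefl _ h4
  refine ⟨fun y => bK (maj fun i => b ω i y), T5a (b ω) (hbm ω) maj,
    univ.filter fun y : V → Bool => maj (fun i => b ω i y) ≠ f y, hω, ?_⟩
  intro y hy
  have : maj (fun i => b ω i y) = f y := by
    by_contra h
    exact hy (Finset.mem_filter.2 ⟨Finset.mem_univ _, h⟩)
  change (bK (maj fun i => b ω i y) : ZMod p) = bK (f y)
  rw [this]

end Pool.Agent.H820R3.AC
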