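import Pool.Agent.H820R3.AC.Core

namespace Pool.Agent.H820R3.AC

open H746R3.Inv Finset

theorem T6 {p : ℕ} [Fact p.Prime] (K : Type*) [Field K] [Algebra (ZMod p) K] {V : Type*}
    [DecidableEq V] {d : ℕ} {f : (V → Bool) → ZMod p} (hf : f ∈ LD (ZMod p) V d) :
    (fun y => algebraMap (ZMod p) K (f y)) ∈ LD K V d := by
  refine Submodule.span_induction
    (p := fun f _ => (fun y => algebraMap (ZMod p) K (f y)) ∈ LD K V d) ?_ ?_ ?_ ?_ hf
  · rintro f ⟨B, hB, rfl⟩
    have h1 : (fun y => algebraMap (ZMod p) K (mono B y)) = (mono B : (V → Bool) → K) := by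
      funext y
      unfold mono
      rw [map_prod]
      refine Finset.prod_congr rfl fun i _ => ?_
      cases y i <;> simp
    rw [h1]
    exact mono_mem hB
  · simp only [Pi.zero_apply, map_zero]
    exact Submodule.zero_mem _
  · intro a b _ _ ha hb
    have : (fun y => algebraMap (ZMod p) K ((a + b) y)) =
        (fun y => algebraMap (ZMod p) K (a y)) + fun y => algebraMap (ZMod p) K (b y) := by
      funext y
      simp
    rw [this]
    exact Submodule.add_mem _ ha hb
  · intro c a _ ha
    have : (fun y => algebraMap (ZMod p) K ((c • a) y)) =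
        (algebraMap (ZMod p) K c) • fun y => algebraMap (ZMod p) K (a y) := by
      funext y
      simp
    rw [this]
    exact Submodule.smul_mem _ _ ha

end Pool.Agent.H820R3.AC
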