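import Pool.Agent.H820R3.AC.Core

namespace Pool.Agent.H820R3.AC

open H746R3.Inv Finset

theorem T7a {I : Type} {m : ℕ} (p : ℕ) (P : Protocol I m) (x : I → Bool) :
    ∃ τ, P.Sends p x τ := by
  have key : ∀ k : ℕ, k ≤ m → ∃ τ : Fin m → Bool, ∀ i : Fin m, i.1 < k →
      (P.alice i).Computes p (Sum.elim x (P.bob i fun j => τ (Fin.castLE i.2.le j)))
        fun _ => τ i := by
    intro k
    induction k with
    | zero => exact fun _ => ⟨fun _ => false, fun i hi => absurd hi (Nat.not_lt_zero _)⟩
    | succ k ih =>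
      intro hk
      obtain ⟨τ, hτ⟩ := ih (by omega)
      set i0 : Fin m := ⟨k, by omega⟩ with hi0
      set y : I ⊕ Fin P.B → Bool :=
        Sum.elim x (P.bob i0 fun j => τ (Fin.castLE i0.2.le j)) with hy
      obtain ⟨v, hv, _⟩ := (P.alice i0).existsUnique_run p y
      refine ⟨Function.update τ i0 ((P.alice i0).wire y v ((P.alice i0).out ())), ?_⟩
      intro i hi
      have hsame : ∀ i : Fin m, i.1 ≤ k → (fun j : Fin i => Function.update τ i0
          ((P.alice i0).wire y v ((P.alice i0).out ())) (Fin.castLE i.2.le j)) =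
          fun j : Fin i => τ (Fin.castLE i.2.le j) := by
        intro i hi
        funext j
        refine Function.update_of_ne ?_ _ _
        intro h
        have h1 := congrArg Fin.val h
        simp only [Fin.val_castLE, hi0] at h1
        have := j.2
        omega
      rw [hsame i (by omega)]
      by_cases hik : i = i0
      · subst hik
        refine ⟨v, hv, fun _ => ?_⟩
        rw [Function.update_self]
      · have h1 : i.1 < k := by
          have h2 : i.1 ≠ k := fun h => hik (Fin.ext h)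
          omega
        have h2 := hτ i h1
        rw [Function.update_of_ne hik]
        exact h2
  obtain ⟨τ, hτ⟩ := key m le_rfl
  exact ⟨τ, fun i => hτ i i.2⟩

open Classical in
theorem T7b {Ω Y T : Type*} [Fintype Ω] [Nonempty Ω] [Fintype T] [Nonempty T]
    (R : Ω → Y → T → Prop) (Z : Finset Y) (e : ℕ)
    (h : ∀ y ∈ Z, Fintype.card Ω ≤ 2 ^ e * Nat.card {ρ : Ω // ∃ τ, R ρ y τ}) :
    ∃ ρ τ, Z.card ≤ 2 ^ e * Fintype.card T * (Z.filter fun y => R ρ y τ).card := by
  by_contra hcon
  push Not at hcon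
  have h1 : ∀ y ∈ Z, Fintype.card Ω ≤
      2 ^ e * (univ.filter fun q : Ω × T => R q.1 y q.2).card := by
    intro y hy
    refine (h y hy).trans (Nat.mul_le_mul_left _ ?_)
    rw [Nat.card_eq_fintype_card, Fintype.card_subtype]
    refine Finset.card_le_card_of_surjOn Prod.fst ?_
    intro ρ hρ
    obtain ⟨τ, hτ⟩ := (Finset.mem_filter.1 (Finset.mem_coe.1 hρ)).2
    exact ⟨(ρ, τ), Finset.mem_coe.2 (Finset.mem_filter.2 ⟨Finset.mem_univ _, hτ⟩), rfl⟩
  have h2 : Z.card * Fintype.card Ω ≤
      2 ^ e * ∑ q : Ω × T, (Z.filter fun y => R q.1 y q.2).card := by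
    have e1 : ∑ q : Ω × T, (Z.filter fun y => R q.1 y q.2).card =
        ∑ y ∈ Z, (univ.filter fun q : Ω × T => R q.1 y q.2).card := by
      simp only [Finset.card_filter]
      exact Finset.sum_comm
    rw [e1, Finset.mul_sum, ← smul_eq_mul, ← Finset.sum_const]
    exact Finset.sum_le_sum h1
  have h3 : ∑ q : Ω × T, 2 ^ e * Fintype.card T * (Z.filter fun y => R q.1 y q.2).card <
      ∑ _q : Ω × T, Z.card :=
    Finset.sum_lt_sum_of_nonempty Finset.univ_nonempty fun q _ => hcon q.1 q.2
  rw [← Finset.mul_sum, Finset.sum_const, Finset.card_univ, Fintype.card_prod, smul_eq_mul] at h3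
  have h4 : Fintype.card T * (Z.card * Fintype.card Ω) ≤
      Fintype.card T * (2 ^ e * ∑ q : Ω × T, (Z.filter fun y => R q.1 y q.2).card) :=
    Nat.mul_le_mul_left _ h2
  have h5 : Fintype.card T * (2 ^ e * ∑ q : Ω × T, (Z.filter fun y => R q.1 y q.2).card) =
      2 ^ e * Fintype.card T * ∑ q : Ω × T, (Z.filter fun y => R q.1 y q.2).card := by ring
  have h6 : Fintype.card T * (Z.card * Fintype.card Ω) =
      Fintype.card Ω * Fintype.card T * Z.card := by ring
  rw [h5, h6] at h4
  exact absurd (h4.trans_lt h3) (lt_irrefl _)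

end Pool.Agent.H820R3.AC
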