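import Pool.Agent.H820R3.AC.Core

namespace Pool.Agent.H820R3.AC

open H746R3.Inv Finset Pool.Agent.H559R4

theorem T8_wt {n : ℕ} (x : Fin n → Bool) :
    (univ.filter fun j => x j = true).card = ∑ j, (if x j = true then 1 else 0) := by
  rw [Finset.card_filter]

theorem T8_pat (k r : ℕ) (hr : r ≤ k) :
    (univ.filter fun j : Fin k => decide ((j : ℕ) < r) = true).card = r := by
  have h1 : (univ.filter fun j : Fin k => decide ((j : ℕ) < r) = true)
      = (univ : Finset (Fin r)).image (Fin.castLE hr) := by
    ext j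
    simp only [mem_filter, mem_univ, true_and, decide_eq_true_eq, mem_image]
    constructor
    · intro h
      exact ⟨⟨j, h⟩, rfl⟩
    · rintro ⟨i, rfl⟩
      exact i.2
  rw [h1, Finset.card_image_of_injective _ (Fin.castLE_injective hr), Finset.card_univ,
    Fintype.card_fin]

theorem T8_app {a k : ℕ} (u : Fin a → Bool) (v : Fin k → Bool) :
    (univ.filter fun j => Fin.append u v j = true).card
      = (univ.filter fun j => u j = true).card + (univ.filter fun j => v j = true).card := by
  rw [T8_wt, T8_wt, T8_wt, Fin.sum_univ_add]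
  simp

theorem T8 (q t N : ℕ) (hq : 1 ≤ q) (hN : q - 1 ≤ N) :
    2 ^ (t * N) ≤ 2 ^ ((q - 1) * t) * (univ.filter fun y : Fin t × Fin N → Bool =>
      ∀ i, q ∣ (univ.filter fun j => y (i, j) = true).card).card := by
  obtain ⟨a, rfl⟩ := Nat.exists_eq_add_of_le' hN
  have h1 : 2 ^ (t * (a + (q - 1))) = 2 ^ ((q - 1) * t) * 2 ^ (t * a) := by
    rw [← pow_add]
    congr 1
    ring
  rw [h1]
  apply Nat.mul_le_mul_left
  have h2 : 2 ^ (t * a) = Fintype.card (Fin t → Fin a → Bool) := by
    simp [← pow_mul, mul_comm]
  rw [h2, ← Finset.card_univ]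
  let r : (Fin a → Bool) → ℕ := fun u => (q - (univ.filter fun j => u j = true).card % q) % q
  have hr : ∀ u, r u ≤ q - 1 := by
    intro u
    have : r u < q := Nat.mod_lt _ (by omega)
    omega
  have hdiv : ∀ u : Fin a → Bool, q ∣ (univ.filter fun j => u j = true).card + r u := by
    intro u
    set w := (univ.filter fun j => u j = true).card with hw
    have hlt : w % q < q := Nat.mod_lt _ (by omega)
    apply Nat.dvd_of_mod_eq_zero
    show (w + (q - w % q) % q) % q = 0
    rw [Nat.add_mod_mod]
    have h3 : (w + (q - w % q)) % q = (w % q + (q - w % q)) % q := by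
      rw [Nat.mod_add_mod]
    rw [h3]
    have h4 : w % q + (q - w % q) = q := by omega
    rw [h4, Nat.mod_self]
  apply Finset.card_le_card_of_injOn
    (fun u : Fin t → Fin a → Bool => fun p : Fin t × Fin (a + (q - 1)) =>
      Fin.append (u p.1) (fun j : Fin (q - 1) => decide ((j : ℕ) < r (u p.1))) p.2)
  · intro u _
    simp only [coe_filter, mem_univ, true_and, Set.mem_ofPred_eq]
    intro i
    have e := T8_app (u i) (fun j : Fin (q - 1) => decide ((j : ℕ) < r (u i)))
    rw [T8_pat _ _ (hr _)] at e
    have h5 := hdiv (u i)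
    rw [← e] at h5
    exact h5
  · intro u _ u' _ h
    funext i j
    have := congrFun h (i, Fin.castAdd (q - 1) j)
    simpa using this

end Pool.Agent.H820R3.AC
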