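import Pool.Agent.H820R3.AC.T10
import Pool.Agent.H820R3.AC.T3
import Pool.Agent.H820R3.AC.T4c
import Pool.Agent.H820R3.AC.T5c
import Pool.Agent.H820R3.AC.T6
import Pool.Agent.H820R3.AC.T7
import Pool.Agent.H820R3.AC.T8

namespace Pool.Agent.H820R3.AC

open H746R3.Inv Finset Pool.Agent.H559R4

theorem prod_zz {K : Type*} [Field K] (ζ : K) {q : ℕ} (hζ : ζ ^ q = 1) {N : ℕ} (x : Fin N → Bool)
    (h : q ∣ (univ.filter fun j => x j = true).card) : ∏ j, zz ζ (x j) = 1 := by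
  have h1 : ∏ j, zz ζ (x j) = ζ ^ (univ.filter fun j => x j = true).card := by
    unfold zz
    rw [Finset.prod_ite]
    simp
  rw [h1]
  obtain ⟨k, hk⟩ := h
  rw [hk, pow_mul, hζ, one_pow]

theorem T11 {p : ℕ} [Fact p.Prime] {K : Type*} [Field K] [Algebra (ZMod p) K] (ζ : K) {q : ℕ}
    (h0 : ζ ≠ 0) (h1 : ζ ≠ 1) (hζ : ζ ^ q = 1) (hq : 1 ≤ q) {h t N m e s : ℕ} (hN : q - 1 ≤ N)
    {I Ω : Type} [Fintype Ω] [Nonempty Ω] (P : Ω → Protocol I m)
    (hP : ∀ ρ, (P ρ).Small h s) (A : Ω → Set (Fin m → Bool))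
    (inst : (Fin t × Fin N → Bool) → I → Bool)
    (hinst : ∀ l, (fun y => (bK (inst y l) : ZMod p)) ∈ LD (ZMod p) (Fin t × Fin N) 1)
    (hsound : ∀ y ρ τ, (P ρ).Sends p (inst y) τ → τ ∈ A ρ →
      ∀ i, q ∣ (univ.filter fun j => y (i, j) = true).card)
    (hcomp : ∀ y : Fin t × Fin N → Bool,
      (∀ i, q ∣ (univ.filter fun j => y (i, j) = true).card) →
      Fintype.card Ω ≤ 2 ^ e * Nat.card {ρ : Ω // ∀ τ, (P ρ).Sends p (inst y) τ → τ ∈ A ρ})
    (ℓ j L : ℕ) (hℓ : 1 ≤ ℓ) (hℓs : 16 * (s + 1) ≤ p ^ ℓ) (hj : 8 * j ≤ t * N)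
    (hL : (t * N + 1) * 2 ^ ((q - 1) * t + e + m + 16 * j ^ 2 / (t * N) + 1) < 2 ^ L) :
    t * (N - N / 2) ≤ (t * N / 2 - j) + L * ((p - 1) * (ℓ * (p - 1)) ^ (h + 1)) := by
  classical
  set Z : Finset (Fin t × Fin N → Bool) := univ.filter fun y =>
    ∀ i, q ∣ (univ.filter fun j => y (i, j) = true).card with hZ
  have hcardV : Fintype.card (Fin t × Fin N) = t * N := by simp
  have hZc := T8 q t N hq hN
  rw [← hZ] at hZc
  obtain ⟨ρ, τ, hρτ⟩ := T7b (Ω := Ω) (T := Fin m → Bool)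
    (fun ρ y τ => (P ρ).Sends p (inst y) τ ∧ τ ∈ A ρ) Z e (by
      intro y hy
      refine (hcomp y (Finset.mem_filter.1 hy).2).trans (Nat.mul_le_mul_left _ ?_)
      refine Nat.card_le_card_of_injective (fun ρ => ⟨ρ.1, ?_⟩) ?_
      · obtain ⟨τ, hτ⟩ := T7a p (P ρ.1) (inst y)
        exact ⟨τ, hτ, ρ.2 τ hτ⟩
      · intro a b hab
        exact Subtype.ext (Subtype.mk.inj hab))
  set S : Finset (Fin t × Fin N → Bool) := Z.filter fun y =>
    (P ρ).Sends p (inst y) τ ∧ τ ∈ A ρ with hS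
  have hcardT : Fintype.card (Fin m → Bool) = 2 ^ m := by simp
  have hρτ' : Z.card ≤ 2 ^ e * 2 ^ m * S.card := by
    rw [hcardT] at hρτ
    convert hρτ
  have hZpos : 0 < Z.card := by
    rcases Nat.eq_zero_or_pos Z.card with h | h
    · rw [h, mul_zero] at hZc
      have := Nat.pow_pos (n := t * N) (show 0 < 2 by norm_num)
      omega
    · exact h
  have hSpos : 0 < S.card := by
    rcases Nat.eq_zero_or_pos S.card with h | h
    · rw [h, mul_zero] at hρτ'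
      omega
    · exact h
  have hτA : τ ∈ A ρ := by
    obtain ⟨y, hy⟩ := Finset.card_pos.1 hSpos
    exact (Finset.mem_filter.1 hy).2.2
  have hmemS : ∀ y, y ∈ S ↔ (P ρ).Sends p (inst y) τ := by
    intro y
    constructor
    · intro hy
      exact (Finset.mem_filter.1 hy).2.1
    · intro hy
      refine Finset.mem_filter.2 ⟨Finset.mem_filter.2 ⟨Finset.mem_univ _, ?_⟩, hy, hτA⟩
      exact hsound y ρ τ hy hτA
  have hPP := T4c (p := p) (V := Fin t × Fin N) (P ρ) h s ℓ hℓ (hP ρ) inst hinst τ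
  obtain ⟨Q, hQ, E, hE, hQE⟩ := T5c hPP hℓs L
  rw [hcardV] at hE
  refine T10 ζ h0 h1 S E ?_ (fun y => algebraMap (ZMod p) K (Q y)) (T6 K hQ) ?_ ?_
  · intro y hy i
    exact prod_zz ζ hζ (fun j => y (i, j))
      ((Finset.mem_filter.1 (Finset.mem_filter.1 hy).1).2 i)
  · intro y hy
    rw [hQE y hy]
    by_cases hy' : y ∈ S
    · rw [if_pos hy', decide_eq_true ((hmemS y).1 hy')]
      simp
    · rw [if_neg hy', decide_eq_false (fun h => hy' ((hmemS y).2 h))]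
      simp
  · by_contra hcon
    push Not at hcon
    have h3 := T3 (t * N) j hj
    set B := ball (t * N) (t * N / 2 - j) with hB
    set X := (q - 1) * t with hX
    set Y := 16 * j ^ 2 / (t * N) + 1 with hY
    have h4 : 2 ^ (t * N) * 2 ^ (t * N) ≤ ((t * N + 1) * 2 ^ (X + e + m + Y)) * (S.card * B) := by
      calc 2 ^ (t * N) * 2 ^ (t * N)
          ≤ (2 ^ X * (2 ^ e * 2 ^ m * S.card)) * ((t * N + 1) * 2 ^ Y * B) :=
            Nat.mul_le_mul (hZc.trans (Nat.mul_le_mul_left _ hρτ')) h3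
        _ = ((t * N + 1) * 2 ^ (X + e + m + Y)) * (S.card * B) := by
            rw [pow_add, pow_add, pow_add]; ring
    have hpos : 0 < S.card * B := by
      rcases Nat.eq_zero_or_pos (S.card * B) with h | h
      · rw [h, mul_zero] at h4
        have := Nat.mul_pos (Nat.pow_pos (n := t * N) (show 0 < 2 by norm_num))
          (Nat.pow_pos (n := t * N) (show 0 < 2 by norm_num))
        omega
      · exact h
    have h5 : ((t * N + 1) * 2 ^ (X + e + m + Y)) * (S.card * B) < 2 ^ L * (S.card * B) := by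
      refine Nat.mul_lt_mul_of_pos_right ?_ hpos
      rw [hY, ← add_assoc]
      exact hL
    have h6 : 2 ^ L * (S.card * B) ≤ 2 ^ (t * N) * 2 ^ (t * N) := by
      calc 2 ^ L * (S.card * B) ≤ 2 ^ L * (E.card * 2 ^ (t * N)) := Nat.mul_le_mul_left _ hcon
        _ = (E.card * 2 ^ L) * 2 ^ (t * N) := by ring
        _ ≤ 2 ^ (t * N) * 2 ^ (t * N) := Nat.mul_le_mul_right _ hE
    omega

end Pool.Agent.H820R3.AC
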