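import Pool.Agent.H820R3.AC.Core

namespace Pool.Agent.H820R3.AC

open H746R3.Inv Finset

theorem T1a {K : Type*} [Field K] {V : Type*} [Fintype V] [DecidableEq V] {k : ℕ}
    {f : (V → Bool) → K}
    (hf : f ∈ LD K V k) (hk : k < Fintype.card V) :
    ∑ y : V → Bool, (-1) ^ (univ.filter fun v => y v = true).card * f y = 0 := by
  refine Submodule.span_induction (p := fun f _ =>
    ∑ y : V → Bool, (-1 : K) ^ (univ.filter fun v => y v = true).card * f y = 0) ?_ ?_ ?_ ?_ hf
  · rintro f ⟨B, hB, rfl⟩
    have h1 : ∀ y : V → Bool, (-1 : K) ^ (univ.filter fun v => y v = true).card * mono B y =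
        ∏ v, (if v ∈ B then (if y v then (-1 : K) else 0) else (if y v then -1 else 1)) := by
      intro y
      have e1 : (-1 : K) ^ (univ.filter fun v => y v = true).card =
          ∏ v, (if y v = true then (-1 : K) else 1) := by
        rw [Finset.prod_ite]
        simp
      have e2 : (mono B y : K) = ∏ v, (if v ∈ B then bK (y v) else 1) := by
        unfold mono
        rw [Finset.prod_ite_mem]
        simp
      rw [e1, e2, ← Finset.prod_mul_distrib]
      refine Finset.prod_congr rfl fun v _ => ?_
      by_cases hv : v ∈ B
      · rcases Bool.eq_false_or_eq_true (y v) with h | h <;> simp [h, hv]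
      · rcases Bool.eq_false_or_eq_true (y v) with h | h <;> simp [h, hv]
    simp only [h1]
    have h2 := Finset.prod_univ_sum (fun _ : V => (univ : Finset Bool))
      (fun v b => (if v ∈ B then (if b then (-1 : K) else 0) else (if b then -1 else 1)))
    rw [Fintype.piFinset_univ] at h2
    rw [← h2]
    have hex : ∃ v0, v0 ∉ B := by
      by_contra hcon
      push Not at hcon
      have : B = univ := Finset.eq_univ_iff_forall.2 hcon
      rw [this, Finset.card_univ] at hB
      omega
    obtain ⟨v0, hv0⟩ := hex
    refine Finset.prod_eq_zero (Finset.mem_univ v0) ?_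
    simp [hv0]
  · simp
  · intro a b _ _ ha hb
    simp only [Pi.add_apply, mul_add, Finset.sum_add_distrib, ha, hb, add_zero]
  · intro c a _ ha
    simp only [Pi.smul_apply, smul_eq_mul]
    have : ∀ y : V → Bool, (-1 : K) ^ (univ.filter fun v => y v = true).card * (c * a y) =
        c * ((-1) ^ (univ.filter fun v => y v = true).card * a y) := fun y => by ring
    simp only [this, ← Finset.mul_sum, ha, mul_zero]

end Pool.Agent.H820R3.AC
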