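import Pool.Agent.H820R3.AC.T4b

namespace Pool.Agent.H820R3.AC

open H746R3.Inv Finset

variable {p : ℕ} [Fact p.Prime] {V : Type} [DecidableEq V]

/-- the polynomial of a gate with random coefficients `a` -/
def gpoly {ℓ len : ℕ} (κ : Kind) (a : Fin ℓ → Fin len → ZMod p)
    (w : Fin len → (V → Bool) → ZMod p) : (V → Bool) → ZMod p :=
  match κ with
  | .and => ∏ k, (1 - (∑ i, a k i • (1 - w i)) ^ (p - 1))
  | .or => 1 - ∏ k, (1 - (∑ i, a k i • w i) ^ (p - 1))
  | .mod => 1 - (∑ i, w i) ^ (p - 1)
  | .wild _ => 0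

/-- the wires that decide the value of the gate -/
def crit {len : ℕ} (κ : Kind) (τ : Fin len → Bool) : Finset (Fin len) :=
  match κ with
  | .and => univ.filter fun i => τ i = false
  | .or => univ.filter fun i => τ i = true
  | .mod => ∅
  | .wild _ => ∅

theorem gpoly_mem {ℓ len D : ℕ} (hℓ : 1 ≤ ℓ) (κ : Kind) (a : Fin ℓ → Fin len → ZMod p)
    (w : Fin len → (V → Bool) → ZMod p) (hw : ∀ i, w i ∈ LD (ZMod p) V D) :
    gpoly κ a w ∈ LD (ZMod p) V (ℓ * ((p - 1) * D)) := by
  have key : ∀ u : Fin ℓ → (V → Bool) → ZMod p, (∀ k, u k ∈ LD (ZMod p) V D) →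
      ∏ k, (1 - (u k) ^ (p - 1)) ∈ LD (ZMod p) V (ℓ * ((p - 1) * D)) := by
    intro u hu
    have h1 := prod_mem' (univ : Finset (Fin ℓ)) (fun k => 1 - (u k) ^ (p - 1))
      (fun _ => (p - 1) * D) fun k _ => Submodule.sub_mem _ (H746R3.Inv.one_mem _)
        (pow_mem' (hu k) _)
    rw [Finset.sum_const, smul_eq_mul, Finset.card_univ, Fintype.card_fin] at h1
    exact h1
  cases κ with
  | and =>
    refine key (fun k => ∑ i, a k i • (1 - w i)) fun k => Submodule.sum_mem _ fun i _ => ?_
    exact Submodule.smul_mem _ _ (Submodule.sub_mem _ (H746R3.Inv.one_mem _) (hw i))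
  | or =>
    refine Submodule.sub_mem _ (H746R3.Inv.one_mem _) (key (fun k => ∑ i, a k i • w i) fun k =>
      Submodule.sum_mem _ fun i _ => ?_)
    exact Submodule.smul_mem _ _ (hw i)
  | mod =>
    refine Submodule.sub_mem _ (H746R3.Inv.one_mem _) (LD_mono ?_
      (pow_mem' (Submodule.sum_mem _ fun i _ => hw i) (p - 1)))
    exact Nat.le_mul_of_pos_left _ hℓ
  | wild φ => exact Submodule.zero_mem _

omit [DecidableEq V] in
theorem nor_val {ℓ len : ℕ} (a : Fin ℓ → Fin len → ZMod p)
    (u : Fin len → (V → Bool) → ZMod p) (y : V → Bool) (τ : Fin len → Bool)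
    (hu : ∀ i, u i y = bK (τ i))
    (ha : ¬ ((univ.filter fun i => τ i = true).Nonempty ∧
      ∀ k, ∑ i ∈ univ.filter (fun i => τ i = true), a k i = 0)) :
    (∏ k, (1 - (∑ i, a k i • u i) ^ (p - 1))) y = bK (decide (∀ i, τ i = false)) := by
  have hp : 1 < p := (Fact.out : p.Prime).one_lt
  set T := univ.filter fun i => τ i = true with hT
  have hsv : ∀ k, (∑ i, a k i • u i) y = ∑ i ∈ T, a k i := by
    intro k
    rw [Finset.sum_apply, hT, Finset.sum_filter]
    refine Finset.sum_congr rfl fun i _ => ?_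
    rw [Pi.smul_apply, hu i]
    rcases Bool.eq_false_or_eq_true (τ i) with h | h <;> simp [h]
  have hQy : (∏ k, (1 - (∑ i, a k i • u i) ^ (p - 1))) y =
      ∏ k, (1 - (∑ i ∈ T, a k i) ^ (p - 1)) := by
    rw [Finset.prod_apply]
    refine Finset.prod_congr rfl fun k _ => ?_
    rw [Pi.sub_apply, Pi.pow_apply, hsv k]
    rfl
  rw [hQy]
  rcases Finset.eq_empty_or_nonempty T with hTe | hTne
  · have h3 : ∀ i, τ i = false := by
      intro i
      by_contra h
      have : i ∈ T := Finset.mem_filter.2 ⟨Finset.mem_univ _, by simpa using h⟩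
      rw [hTe] at this
      exact absurd this (Finset.notMem_empty _)
    rw [decide_eq_true h3, hTe]
    simp only [Finset.sum_empty]
    rw [zero_pow (by omega)]
    simp
  · have h3 : ¬ ∀ i, τ i = false := by
      intro h
      obtain ⟨i, hi⟩ := hTne
      have := (Finset.mem_filter.1 hi).2
      rw [h i] at this
      exact Bool.noConfusion this
    rw [decide_eq_false h3]
    have h2 : ∃ k, ∑ i ∈ T, a k i ≠ 0 := by
      by_contra hcon
      push Not at hcon
      exact ha ⟨hTne, hcon⟩
    obtain ⟨k, hk⟩ := h2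
    rw [Finset.prod_eq_zero (Finset.mem_univ k)]
    · rfl
    · rw [ZMod.pow_card_sub_one_eq_one hk, sub_self]

omit [DecidableEq V] in
theorem gpoly_val {ℓ len : ℕ} (κ : Kind) (hκ : ¬ κ.IsWild) (a : Fin ℓ → Fin len → ZMod p)
    (w : Fin len → (V → Bool) → ZMod p) (y : V → Bool) (τ : Fin len → Bool)
    (hw : ∀ i, w i y = bK (τ i))
    (ha : ¬ ((crit κ τ).Nonempty ∧ ∀ k, ∑ i ∈ crit κ τ, a k i = 0)) :
    gpoly κ a w y = bK (κ.eval p (List.ofFn τ)) := by
  have hp : 1 < p := (Fact.out : p.Prime).one_lt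
  cases κ with
  | and =>
    have hcr : crit .and τ = univ.filter fun i => (!(τ i)) = true := by
      unfold crit
      ext i
      simp
    rw [hcr] at ha
    have h1 := nor_val a (fun i => 1 - w i) y (fun i => !(τ i)) (by
      intro i
      rw [Pi.sub_apply, hw i]
      rcases Bool.eq_false_or_eq_true (τ i) with h | h <;> simp [h]) ha
    change (∏ k, (1 - (∑ i, a k i • (1 - w i)) ^ (p - 1))) y = _
    rw [h1]
    congr 1
    simp only [Kind.eval]
    rw [Bool.eq_iff_iff, decide_eq_true_iff, List.all_eq_true]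
    constructor
    · intro h b hb
      obtain ⟨i, rfl⟩ := List.mem_ofFn' _ _ |>.1 hb
      simpa using h i
    · intro h i
      have := h (τ i) (List.mem_ofFn' _ _ |>.2 ⟨i, rfl⟩)
      simpa using this
  | or =>
    have h1 := nor_val a w y τ hw ha
    change (1 - ∏ k, (1 - (∑ i, a k i • w i) ^ (p - 1)) : (V → Bool) → ZMod p) y = _
    rw [Pi.sub_apply, h1]
    simp only [Kind.eval]
    by_cases hall : ∀ i, τ i = false
    · have : (List.ofFn τ).any id = false := by
        rw [List.any_eq_false]
        intro b hb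
        obtain ⟨i, rfl⟩ := List.mem_ofFn' _ _ |>.1 hb
        simp [hall i]
      rw [this, decide_eq_true hall]
      simp
    · have : (List.ofFn τ).any id = true := by
        push Not at hall
        obtain ⟨i, hi⟩ := hall
        rw [List.any_eq_true]
        exact ⟨τ i, List.mem_ofFn' _ _ |>.2 ⟨i, rfl⟩, by simpa using hi⟩
      rw [this, decide_eq_false hall]
      simp
  | mod =>
    change (1 - (∑ i, w i) ^ (p - 1) : (V → Bool) → ZMod p) y = _
    simp only [Kind.eval]
    have h1 : (∑ i, w i) y = (((List.ofFn τ).count true : ℕ) : ZMod p) := by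
      have h2 := count_ofFn τ
      rw [h2, Finset.sum_apply]
      push_cast
      refine Finset.sum_congr rfl fun i _ => ?_
      rw [hw i]
      rcases Bool.eq_false_or_eq_true (τ i) with h | h <;> simp [h]
    rw [Pi.sub_apply, Pi.pow_apply, h1]
    by_cases hd : p ∣ (List.ofFn τ).count true
    · have h3 : (((List.ofFn τ).count true : ℕ) : ZMod p) = 0 :=
        (ZMod.natCast_eq_zero_iff _ _).2 hd
      rw [h3, zero_pow (by omega)]
      simp [hd]
    · have h3 : (((List.ofFn τ).count true : ℕ) : ZMod p) ≠ 0 := fun h =>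
        hd ((ZMod.natCast_eq_zero_iff _ _).1 h)
      rw [ZMod.pow_card_sub_one_eq_one h3]
      simp [hd]
  | wild φ => exact absurd trivial hκ

/-- union bound over the coordinates -/
theorem union_bound {m : ℕ} (Ω : Fin m → Type) [∀ i, Fintype (Ω i)] [∀ i, DecidableEq (Ω i)]
    (B : (i : Fin m) → Finset (Ω i)) (X : Finset (∀ i, Ω i)) (N : ℕ)
    (hB : ∀ i, (B i).card * N ≤ Fintype.card (Ω i))
    (hX : X ⊆ univ.biUnion fun i => univ.filter fun ω : (∀ j, Ω j) => ω i ∈ B i) :
    X.card * N ≤ m * Fintype.card (∀ j, Ω j) := by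
  classical
  calc X.card * N ≤ (∑ i, (univ.filter fun ω : (∀ j, Ω j) => ω i ∈ B i).card) * N :=
        Nat.mul_le_mul_right _ ((Finset.card_le_card hX).trans Finset.card_biUnion_le)
    _ = ∑ i, (univ.filter fun ω : (∀ j, Ω j) => ω i ∈ B i).card * N := by rw [Finset.sum_mul]
    _ ≤ ∑ _i : Fin m, 1 * Fintype.card (∀ j, Ω j) :=
        Finset.sum_le_sum fun i _ => card_coord Ω i (B i) N 1 (by rw [one_mul]; exact hB i)
    _ = _ := by
        rw [Finset.sum_const, Finset.card_univ, Fintype.card_fin, smul_eq_mul, one_mul]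

/-- the true bits on the wires into a gate -/
noncomputable def bits {I : Type} (p : ℕ) (C : Circuit I Unit) (inp : I → (V → Bool) → Bool)
    (g : Fin C.G) (y : V → Bool) (i : Fin (C.wires g).length) : Bool :=
  C.wire (fun s => inp s y) (C.run p fun s => inp s y) ((C.wires g).get i)

theorem gates_prob {I : Type} (C : Circuit I Unit) (ℓ : ℕ) (hℓ : 1 ≤ ℓ)
    (hw : ∀ g, ¬ (C.kind g).IsWild) (inp : I → (V → Bool) → Bool)
    (hinp : ∀ i, (fun y => (bK (inp i y) : ZMod p)) ∈ LD (ZMod p) V 1)
    (ω : (g : Fin C.G) → Fin ℓ → Fin (C.wires g).length → ZMod p) (L : ℕ) :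
    ∃ P : Fin C.G → (V → Bool) → ZMod p,
      (∀ g, C.level g < L → P g ∈ LD (ZMod p) V ((ℓ * (p - 1)) ^ (C.level g + 1))) ∧
      ∀ y, (∀ g, ¬ ((crit (C.kind g) (bits p C inp g y)).Nonempty ∧
          ∀ k, ∑ i ∈ crit (C.kind g) (bits p C inp g y), ω g k i = 0)) →
        ∀ g, C.level g < L → P g y = bK (C.run p (fun i => inp i y) g) := by
  have hp : 1 < p := (Fact.out : p.Prime).one_lt
  have hD₀ : 1 ≤ ℓ * (p - 1) := Nat.mul_pos hℓ (by omega)
  induction L with
  | zero =>
    exact ⟨fun _ _ => 0, fun g hg => absurd hg (Nat.not_lt_zero _),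
      fun y _ g hg => absurd hg (Nat.not_lt_zero _)⟩
  | succ L ih =>
    obtain ⟨P, hP, hrun⟩ := ih
    refine ⟨fun g => if C.level g = L then
      gpoly (C.kind g) (ω g) (fun i => wireFn inp P ((C.wires g).get i)) else P g, ?_, ?_⟩
    · intro g hg
      by_cases h : C.level g = L
      · simp only [if_pos h]
        have h1 := gpoly_mem (D := (ℓ * (p - 1)) ^ C.level g) hℓ (C.kind g) (ω g)
          (fun i => wireFn inp P ((C.wires g).get i)) (by
            intro i
            refine wireFn_mem inp hinp P _ (Nat.one_le_pow _ _ hD₀) _ ?_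
            intro g' hg'
            have h2 : C.level g' < C.level g := by
              refine C.level_lt g ((C.wires g).get i).1 g' ?_
              rw [← hg']
              exact List.get_mem _ _
            exact LD_mono (Nat.pow_le_pow_right hD₀ h2) (hP g' (by omega)))
        rwa [show ℓ * ((p - 1) * (ℓ * (p - 1)) ^ C.level g) =
            (ℓ * (p - 1)) ^ (C.level g + 1) by rw [pow_succ]; ring] at h1
      · simp only [if_neg h]
        exact hP g (by omega)
    · intro y hy g hg
      have hold := hrun y hy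
      by_cases h : C.level g = L
      · simp only [if_pos h]
        set v := C.run p (fun i => inp i y) with hv
        have hvr : C.IsRun p (fun i => inp i y) v := C.run_isRun p _
        have hmap : List.ofFn (bits p C inp g y) =
            (C.wires g).map (C.wire (fun i => inp i y) v) := by
          conv_rhs => rw [← List.ofFn_get (C.wires g), List.map_ofFn]
          rfl
        rw [gpoly_val (C.kind g) (hw g) (ω g) _ y (bits p C inp g y) ?_ (hy g), hmap, ← hvr g]
        intro i
        refine wireFn_val C inp P y v _ ?_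
        intro g' hg'
        have h2 : C.level g' < C.level g := by
          refine C.level_lt g ((C.wires g).get i).1 g' ?_
          rw [← hg']
          exact List.get_mem _ _
        exact hold g' (by omega)
      · simp only [if_neg h]
        exact hold g (by omega)

theorem T4a [Fintype V] {I : Type} (C : Circuit I Unit) (h ℓ : ℕ) (hℓ : 1 ≤ ℓ)
    (hC : C.DepthLE h)
    (hw : ∀ g, ¬ (C.kind g).IsWild) (inp : I → (V → Bool) → Bool)
    (hinp : ∀ i, (fun y => (bK (inp i y) : ZMod p)) ∈ LD (ZMod p) V 1)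
    (f : (V → Bool) → Bool) (hf : ∀ y, C.Computes p (fun i => inp i y) fun _ => f y) :
    PP p ((ℓ * (p - 1)) ^ h) ℓ C.G f := by
  classical
  have hp : 1 < p := (Fact.out : p.Prime).one_lt
  have hD₀ : 1 ≤ ℓ * (p - 1) := Nat.mul_pos hℓ (by omega)
  have : NeZero p := ⟨by omega⟩
  choose P hP hrun using fun ω => gates_prob C ℓ hℓ hw inp hinp ω h
  have hfw : ∀ y, f y = C.wire (fun i => inp i y) (C.run p fun i => inp i y) (C.out ()) := by
    intro y
    obtain ⟨v, hv, hb⟩ := hf y
    rw [← C.run_unique p _ v hv]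
    exact hb ()
  refine ⟨(g : Fin C.G) → Fin ℓ → Fin (C.wires g).length → ZMod p, inferInstance,
    fun ω => wireFn inp (P ω) (C.out ()), Fintype.card_pos, ?_, ?_⟩
  · intro ω
    refine wireFn_mem inp hinp (P ω) _ (Nat.one_le_pow _ _ hD₀) _ ?_
    intro g _
    exact LD_mono (Nat.pow_le_pow_right hD₀ (hC g)) (hP ω g (hC g))
  · intro y
    set B : (g : Fin C.G) → Finset (Fin ℓ → Fin (C.wires g).length → ZMod p) := fun g =>
      univ.filter fun a => (crit (C.kind g) (bits p C inp g y)).Nonempty ∧
          ∀ k, ∑ i ∈ crit (C.kind g) (bits p C inp g y), a k i = 0 with hB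
    have hBc : ∀ g, (B g).card * p ^ ℓ ≤
        1 * Fintype.card (Fin ℓ → Fin (C.wires g).length → ZMod p) := by
      intro g
      rw [one_mul]
      by_cases hne : (crit (C.kind g) (bits p C inp g y)).Nonempty
      · refine le_trans (Nat.mul_le_mul_right _ (Finset.card_le_card ?_)) (count_rows ℓ _ hne)
        intro a ha
        exact Finset.mem_filter.2 ⟨Finset.mem_univ _, (Finset.mem_filter.1 ha).2.2⟩
      · have : B g = ∅ := by
          rw [Finset.eq_empty_iff_forall_notMem]
          intro a ha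
          exact hne (Finset.mem_filter.1 ha).2.1
        rw [this]
        simp
    have hsub : (univ.filter fun ω => wireFn inp (P ω) (C.out ()) y ≠ bK (f y)) ⊆
        univ.biUnion fun g => univ.filter
          fun ω : (g : Fin C.G) → Fin ℓ → Fin (C.wires g).length → ZMod p => ω g ∈ B g := by
      intro ω hω
      by_contra hcon
      have hgood : ∀ g, ¬ ((crit (C.kind g) (bits p C inp g y)).Nonempty ∧
          ∀ k, ∑ i ∈ crit (C.kind g) (bits p C inp g y), ω g k i = 0) := by
        intro g hg
        exact hcon (Finset.mem_biUnion.2 ⟨g, Finset.mem_univ _, Finset.mem_filter.2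
          ⟨Finset.mem_univ _, Finset.mem_filter.2 ⟨Finset.mem_univ _, hg⟩⟩⟩)
      refine (Finset.mem_filter.1 hω).2 ?_
      rw [hfw y]
      refine wireFn_val C inp (P ω) y _ _ ?_
      intro g _
      exact hrun ω y hgood g (hC g)
    exact union_bound (fun g : Fin C.G => Fin ℓ → Fin (C.wires g).length → ZMod p) B _ (p ^ ℓ)
      (fun g => by rw [← one_mul (Fintype.card _)]; exact hBc g) hsub

end Pool.Agent.H820R3.AC
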