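import Pool.Agent.H820R3.AC.Core

namespace Pool.Agent.H820R3.AC

open H746R3.Inv Finset

variable {p : ℕ} [Fact p.Prime] {V : Type} [Fintype V] [DecidableEq V]

/-- the random coefficients for which the test for a nonempty set `T` fails -/
theorem count_rows {ι : Type*} [Fintype ι] [DecidableEq ι] (ℓ : ℕ) (T : Finset ι)
    (hT : T.Nonempty) :
    (univ.filter fun a : Fin ℓ → ι → ZMod p => ∀ k, ∑ i ∈ T, a k i = 0).card * p ^ ℓ ≤
      Fintype.card (Fin ℓ → ι → ZMod p) := by
  classical
  have h1 : (univ.filter fun a : Fin ℓ → ι → ZMod p => ∀ k, ∑ i ∈ T, a k i = 0) =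
      Fintype.piFinset fun _ : Fin ℓ => univ.filter fun a : ι → ZMod p => ∑ i ∈ T, a i = 0 := by
    ext a
    simp
  rw [h1, Fintype.card_piFinset, Finset.prod_const, Finset.card_univ, Fintype.card_fin, ← mul_pow,
    Fintype.card_fun, Fintype.card_fin]
  refine Nat.pow_le_pow_left ?_ _
  rw [Fintype.card_fun, ZMod.card]
  exact count_zero T hT

/-- the preimage of a set under a coordinate -/
theorem card_coord {m : ℕ} (Ω : Fin m → Type) [∀ i, Fintype (Ω i)] [∀ i, DecidableEq (Ω i)]
    (i : Fin m)
    (X : Finset (Ω i)) (N e : ℕ) (hX : X.card * N ≤ e * Fintype.card (Ω i)) :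
    (univ.filter fun ω : (∀ j, Ω j) => ω i ∈ X).card * N ≤ e * Fintype.card (∀ j, Ω j) := by
  classical
  have h1 : (univ.filter fun ω : (∀ j, Ω j) => ω i ∈ X) =
      Fintype.piFinset (Function.update (fun j => (univ : Finset (Ω j))) i X) := by
    ext ω
    simp only [Finset.mem_filter, Finset.mem_univ, true_and, Fintype.mem_piFinset]
    constructor
    · intro h j
      by_cases hj : j = i
      · subst hj
        rw [Function.update_self]
        exact h
      · rw [Function.update_of_ne hj]
        exact Finset.mem_univ _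
    · intro h
      have := h i
      rwa [Function.update_self] at this
  rw [h1, Fintype.card_piFinset, Fintype.card_pi,
    ← Finset.mul_prod_erase univ _ (Finset.mem_univ i),
    ← Finset.mul_prod_erase univ (fun j => Fintype.card (Ω j)) (Finset.mem_univ i),
    Function.update_self]
  have h2 : ∏ j ∈ univ.erase i,
      (Function.update (fun j => (univ : Finset (Ω j))) i X j).card =
      ∏ j ∈ univ.erase i, Fintype.card (Ω j) := by
    refine Finset.prod_congr rfl fun j hj => ?_
    rw [Function.update_of_ne (Finset.ne_of_mem_erase hj), Finset.card_univ]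
  rw [h2]
  calc X.card * (∏ j ∈ univ.erase i, Fintype.card (Ω j)) * N
      = (X.card * N) * ∏ j ∈ univ.erase i, Fintype.card (Ω j) := by ring
    _ ≤ (e * Fintype.card (Ω i)) * ∏ j ∈ univ.erase i, Fintype.card (Ω j) :=
        Nat.mul_le_mul_right _ hX
    _ = _ := by ring

theorem T4b {m : ℕ} (D ℓ : ℕ) (hℓ : 1 ≤ ℓ) (e : Fin m → ℕ) (f : Fin m → (V → Bool) → Bool)
    (hf : ∀ i, PP p D ℓ (e i) (f i)) :
    PP p (ℓ * (p - 1) * D) ℓ (∑ i, e i + 1) (fun y => decide (∀ i, f i y = true)) := by
  classical
  choose Ω hΩ P hΩ0 hP hPy using hf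
  have hp : 1 < p := (Fact.out : p.Prime).one_lt
  set s : (∀ i, Ω i) → (Fin m → ZMod p) → (V → Bool) → ZMod p := fun ω a =>
    ∑ i, a i • (1 - P i (ω i)) with hs
  have hsm : ∀ ω a, s ω a ∈ LD (ZMod p) V D := fun ω a =>
    Submodule.sum_mem _ fun i _ => Submodule.smul_mem _ _
      (Submodule.sub_mem _ (one_mem _) (hP i _))
  set Q : (∀ i, Ω i) × (Fin ℓ → Fin m → ZMod p) → (V → Bool) → ZMod p := fun ω =>
    ∏ k, (1 - (s ω.1 (ω.2 k)) ^ (p - 1)) with hQ
  refine ⟨(∀ i, Ω i) × (Fin ℓ → Fin m → ZMod p), inferInstance, Q, ?_, ?_, ?_⟩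
  · rw [Fintype.card_prod]
    refine Nat.mul_pos ?_ ?_
    · rw [Fintype.card_pi]
      exact Finset.prod_pos fun i _ => hΩ0 i
    · have : NeZero p := ⟨by omega⟩
      exact Fintype.card_pos
  · intro ω
    have h1 := prod_mem' (univ : Finset (Fin ℓ)) (fun k => 1 - (s ω.1 (ω.2 k)) ^ (p - 1))
      (fun _ => (p - 1) * D) fun k _ => Submodule.sub_mem _ (H746R3.Inv.one_mem _) (pow_mem' (hsm _ _) _)
    rw [Finset.sum_const, smul_eq_mul, Finset.card_univ, Fintype.card_fin, ← mul_assoc] at h1
    exact h1
  · intro y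
    -- the true set of failures
    set T : Finset (Fin m) := univ.filter fun i => f i y = false with hT
    have hgood : ∀ ω : (∀ i, Ω i) × (Fin ℓ → Fin m → ZMod p),
        (∀ i, P i (ω.1 i) y = bK (f i y)) →
        (T.Nonempty → ∃ k, ∑ i ∈ T, ω.2 k i ≠ 0) →
        Q ω y = bK (decide (∀ i, f i y = true)) := by
      intro ω h1 h2
      have hsv : ∀ k, s ω.1 (ω.2 k) y = ∑ i ∈ T, ω.2 k i := by
        intro k
        simp only [hs]
        rw [Finset.sum_apply, hT, Finset.sum_filter]
        refine Finset.sum_congr rfl fun i _ => ?_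
        rw [Pi.smul_apply, Pi.sub_apply, h1 i]
        rcases Bool.eq_false_or_eq_true (f i y) with h | h <;> simp [h]
      have hQy : Q ω y = ∏ k, (1 - (∑ i ∈ T, ω.2 k i) ^ (p - 1)) := by
        simp only [hQ]
        rw [Finset.prod_apply]
        refine Finset.prod_congr rfl fun k _ => ?_
        rw [Pi.sub_apply, Pi.pow_apply, hsv k]
        rfl
      rw [hQy]
      rcases Finset.eq_empty_or_nonempty T with hTe | hTne
      · have h3 : ∀ i, f i y = true := by
          intro i
          by_contra h
          have : i ∈ T := Finset.mem_filter.2 ⟨Finset.mem_univ _, by simpa using h⟩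
          rw [hTe] at this
          exact absurd this (Finset.notMem_empty _)
        rw [decide_eq_true h3, hTe]
        simp only [Finset.sum_empty]
        rw [zero_pow (by omega)]
        simp
      · have h3 : ¬ ∀ i, f i y = true := by
          intro h
          obtain ⟨i, hi⟩ := hTne
          have := (Finset.mem_filter.1 hi).2
          rw [h i] at this
          exact Bool.noConfusion this
        rw [decide_eq_false h3]
        obtain ⟨k, hk⟩ := h2 hTne
        rw [Finset.prod_eq_zero (Finset.mem_univ k)]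
        · rfl
        · rw [ZMod.pow_card_sub_one_eq_one hk, sub_self]
    -- the bad sets
    set B1 : Fin m → Finset ((∀ i, Ω i) × (Fin ℓ → Fin m → ZMod p)) := fun i =>
      (univ.filter fun ω : (∀ i, Ω i) => ω i ∈ univ.filter fun w => P i w y ≠ bK (f i y)) ×ˢ univ
      with hB1
    set B2 : Finset ((∀ i, Ω i) × (Fin ℓ → Fin m → ZMod p)) :=
      if T.Nonempty then univ ×ˢ (univ.filter fun a : Fin ℓ → Fin m → ZMod p =>
        ∀ k, ∑ i ∈ T, a k i = 0) else ∅ with hB2
    have hsub : (univ.filter fun ω => Q ω y ≠ bK (decide (∀ i, f i y = true))) ⊆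
        (univ.biUnion B1) ∪ B2 := by
      intro ω hω
      by_contra hcon
      rw [Finset.mem_union, not_or] at hcon
      refine (Finset.mem_filter.1 hω).2 (hgood ω ?_ ?_)
      · intro i
        by_contra h
        refine hcon.1 (Finset.mem_biUnion.2 ⟨i, Finset.mem_univ _, ?_⟩)
        simp only [hB1]
        exact Finset.mem_product.2 ⟨Finset.mem_filter.2 ⟨Finset.mem_univ _,
          Finset.mem_filter.2 ⟨Finset.mem_univ _, h⟩⟩, Finset.mem_univ _⟩
      · intro hTne
        by_contra h
        push Not at h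
        refine hcon.2 ?_
        simp only [hB2, if_pos hTne]
        exact Finset.mem_product.2 ⟨Finset.mem_univ _,
          Finset.mem_filter.2 ⟨Finset.mem_univ _, h⟩⟩
    have hB1c : ∀ i, (B1 i).card * p ^ ℓ ≤
        e i * Fintype.card ((∀ i, Ω i) × (Fin ℓ → Fin m → ZMod p)) := by
      intro i
      simp only [hB1]
      rw [Finset.card_product, Finset.card_univ, Fintype.card_prod]
      have h1 := card_coord Ω i (univ.filter fun w => P i w y ≠ bK (f i y)) (p ^ ℓ) (e i)
        (hPy i y)
      calc _ = ((univ.filter fun ω : (∀ i, Ω i) =>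
            ω i ∈ univ.filter fun w => P i w y ≠ bK (f i y)).card * p ^ ℓ) *
            Fintype.card (Fin ℓ → Fin m → ZMod p) := by ring
        _ ≤ (e i * Fintype.card (∀ j, Ω j)) * Fintype.card (Fin ℓ → Fin m → ZMod p) :=
            Nat.mul_le_mul_right _ h1
        _ = _ := by ring
    have hB2c : B2.card * p ^ ℓ ≤
        1 * Fintype.card ((∀ i, Ω i) × (Fin ℓ → Fin m → ZMod p)) := by
      by_cases hTne : T.Nonempty
      · simp only [hB2, if_pos hTne]
        rw [Finset.card_product, Finset.card_univ, Fintype.card_prod, one_mul, mul_assoc]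
        exact Nat.mul_le_mul_left _ (count_rows ℓ T hTne)
      · simp only [hB2, if_neg hTne]
        simp
    calc (univ.filter fun ω => Q ω y ≠ bK (decide (∀ i, f i y = true))).card * p ^ ℓ
        ≤ (∑ i, (B1 i).card + B2.card) * p ^ ℓ := by
          refine Nat.mul_le_mul_right _ ((Finset.card_le_card hsub).trans ?_)
          exact (Finset.card_union_le _ _).trans
            (Nat.add_le_add_right Finset.card_biUnion_le _)
      _ = ∑ i, (B1 i).card * p ^ ℓ + B2.card * p ^ ℓ := by rw [add_mul, Finset.sum_mul]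
      _ ≤ ∑ i, e i * Fintype.card ((∀ i, Ω i) × (Fin ℓ → Fin m → ZMod p)) +
          1 * Fintype.card ((∀ i, Ω i) × (Fin ℓ → Fin m → ZMod p)) :=
          Nat.add_le_add (Finset.sum_le_sum fun i _ => hB1c i) hB2c
      _ = _ := by rw [← Finset.sum_mul, ← add_mul]

end Pool.Agent.H820R3.AC
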