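import Pool.Agent.H820R3.AC.Core

namespace Pool.Agent.H820R3.AC

open H746R3.Inv Finset

theorem T5a {K : Type*} [Field K] {V : Type*} [DecidableEq V] {L D : ℕ}
    (b : Fin L → (V → Bool) → Bool)
    (hb : ∀ i, (fun y => (bK (b i y) : K)) ∈ LD K V D) (φ : (Fin L → Bool) → Bool) :
    (fun y => (bK (φ fun i => b i y) : K)) ∈ LD K V (L * D) := by
  classical
  set F : (Fin L → Bool) → Fin L → (V → Bool) → K := fun c i =>
    if c i then (fun y => (bK (b i y) : K)) else 1 - fun y => (bK (b i y) : K) with hF
  have h1 : (fun y => (bK (φ fun i => b i y) : K)) =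
      ∑ c : Fin L → Bool, (bK (φ c) : K) • ∏ i, F c i := by
    funext y
    rw [Finset.sum_apply, Finset.sum_eq_single (fun i => b i y)]
    · have h2 : (∏ i, F (fun i => b i y) i) y = 1 := by
        rw [Finset.prod_apply]
        refine Finset.prod_eq_one fun i _ => ?_
        simp only [hF]
        rcases Bool.eq_false_or_eq_true (b i y) with h | h
        · simp [h]
        · simp [h]
      rw [Pi.smul_apply, h2, smul_eq_mul, mul_one]
    · intro c _ hc
      have : ∃ i, c i ≠ b i y := by
        by_contra hcon
        push Not at hcon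
        exact hc (funext hcon)
      obtain ⟨i, hi⟩ := this
      have h2 : (∏ i, F c i) y = 0 := by
        rw [Finset.prod_apply]
        refine Finset.prod_eq_zero (Finset.mem_univ i) ?_
        simp only [hF]
        rcases Bool.eq_false_or_eq_true (b i y) with h | h <;>
          rcases Bool.eq_false_or_eq_true (c i) with h' | h' <;> simp_all
      rw [Pi.smul_apply, h2, smul_zero]
    · intro h
      exact absurd (Finset.mem_univ _) h
  rw [h1]
  refine Submodule.sum_mem _ fun c _ => Submodule.smul_mem _ _ ?_
  have h2 := prod_mem' (univ : Finset (Fin L)) (F c) (fun _ => D) (by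
    intro i _
    simp only [hF]
    split_ifs
    · exact hb i
    · exact Submodule.sub_mem _ (one_mem _) (hb i))
  simpa using h2

end Pool.Agent.H820R3.AC
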