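import Pool.Agent.H820R3.AC.Core

namespace Pool.Agent.H820R3.AC

open H746R3.Inv Finset

theorem T7a_update {m : ℕ} (τ : Fin m → Bool) (i0 i : Fin m) (b : Bool) (h : i ≤ i0) :
    (fun j : Fin (i : ℕ) => Function.update τ i0 b (Fin.castLE i.2.le j))
      = fun j : Fin (i : ℕ) => τ (Fin.castLE i.2.le j) := by
  ext j
  rw [Function.update_of_ne]
  intro hc
  have h1 : ((Fin.castLE i.2.le j : Fin m) : ℕ) = i0 := by rw [hc]
  rw [Fin.val_castLE] at h1
  have h2 := j.2
  have h3 : (i : ℕ) ≤ i0 := h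
  omega

theorem T7a {I : Type} {m : ℕ} (p : ℕ) (P : Protocol I m) (x : I → Bool) :
    ∃ τ, P.Sends p x τ := by
  have key : ∀ k : ℕ, k ≤ m → ∃ τ : Fin m → Bool, ∀ i : Fin m, (i : ℕ) < k →
      (P.alice i).Computes p (Sum.elim x (P.bob i fun j => τ (Fin.castLE i.2.le j)))
        fun _ => τ i := by
    intro k
    induction k with
    | zero => exact fun _ => ⟨fun _ => false, fun i hi => absurd hi (Nat.not_lt_zero _)⟩
    | succ k ih =>
      intro hk
      obtain ⟨τ, hτ⟩ := ih (by omega)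
      obtain ⟨i0, hi0⟩ : ∃ i0 : Fin m, (i0 : ℕ) = k := ⟨⟨k, hk⟩, rfl⟩
      obtain ⟨v, hv, _⟩ := (P.alice i0).existsUnique_run p
        (Sum.elim x (P.bob i0 fun j => τ (Fin.castLE i0.2.le j)))
      refine ⟨Function.update τ i0 ((P.alice i0).wire
        (Sum.elim x (P.bob i0 fun j => τ (Fin.castLE i0.2.le j))) v ((P.alice i0).out ())), ?_⟩
      intro i hi
      have hle : i ≤ i0 := by
        show (i : ℕ) ≤ i0
        omega
      rw [T7a_update τ i0 i _ hle]
      by_cases h : i = i0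
      · subst h
        refine ⟨v, hv, fun j => ?_⟩
        rw [Function.update_self]
      · rw [Function.update_of_ne h]
        apply hτ
        have : (i : ℕ) ≠ i0 := fun hc => h (Fin.ext hc)
        omega
  obtain ⟨τ, hτ⟩ := key m le_rfl
  exact ⟨τ, fun i => hτ i i.2⟩

end Pool.Agent.H820R3.AC
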