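import Pool.Agent.H820R3.AC.Core

namespace Pool.Agent.H820R3.AC

open Finset

open Classical in
theorem T7b {Ω Y T : Type*} [Fintype Ω] [Nonempty Ω] [Fintype T] [Nonempty T]
    (R : Ω → Y → T → Prop) (Z : Finset Y) (e : ℕ)
    (h : ∀ y ∈ Z, Fintype.card Ω ≤ 2 ^ e * Nat.card {ρ : Ω // ∃ τ, R ρ y τ}) :
    ∃ ρ τ, Z.card ≤ 2 ^ e * Fintype.card T * (Z.filter fun y => R ρ y τ).card := by
  by_contra hc
  push Not at hc
  have h1 : ∀ y ∈ Z, Nat.card {ρ : Ω // ∃ τ, R ρ y τ}
      ≤ ∑ ρ : Ω, ∑ τ : T, if R ρ y τ then 1 else 0 := by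
    intro y _
    rw [Nat.card_eq_fintype_card, Fintype.card_subtype, card_filter]
    apply sum_le_sum
    intro ρ _
    split_ifs with hρ
    · obtain ⟨τ, hτ⟩ := hρ
      refine le_trans ?_ (single_le_sum (f := fun τ => if R ρ y τ then 1 else 0)
        (fun _ _ => Nat.zero_le _) (mem_univ τ))
      simp [hτ]
    · exact Nat.zero_le _
  have h2 : Z.card * Fintype.card Ω
      ≤ 2 ^ e * ∑ ρ : Ω, ∑ τ : T, (Z.filter fun y => R ρ y τ).card := by
    calc Z.card * Fintype.card Ω = ∑ _y ∈ Z, Fintype.card Ω := by rw [sum_const, smul_eq_mul]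
      _ ≤ ∑ y ∈ Z, 2 ^ e * ∑ ρ : Ω, ∑ τ : T, (if R ρ y τ then 1 else 0) := by
          apply sum_le_sum
          intro y hy
          exact (h y hy).trans (Nat.mul_le_mul_left _ (h1 y hy))
      _ = 2 ^ e * ∑ ρ : Ω, ∑ τ : T, (Z.filter fun y => R ρ y τ).card := by
          rw [← mul_sum, sum_comm]
          congr 1
          apply sum_congr rfl
          intro ρ _
          rw [sum_comm]
          apply sum_congr rfl
          intro τ _
          rw [card_filter]
  have h3 : ∑ ρ : Ω, ∑ τ : T, 2 ^ e * Fintype.card T * (Z.filter fun y => R ρ y τ).card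
      < ∑ _ρ : Ω, ∑ _τ : T, Z.card := by
    apply sum_lt_sum_of_nonempty univ_nonempty
    intro ρ _
    apply sum_lt_sum_of_nonempty univ_nonempty
    intro τ _
    exact hc ρ τ
  have h4 : ∑ ρ : Ω, ∑ τ : T, 2 ^ e * Fintype.card T * (Z.filter fun y => R ρ y τ).card
      = Fintype.card T * (2 ^ e * ∑ ρ : Ω, ∑ τ : T, (Z.filter fun y => R ρ y τ).card) := by
    simp_rw [← mul_sum]
    ring
  have h5 : ∑ _ρ : Ω, ∑ _τ : T, Z.card = Fintype.card T * (Z.card * Fintype.card Ω) := by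
    simp only [sum_const, card_univ, smul_eq_mul]
    ring
  rw [h4, h5] at h3
  exact absurd h3 (not_lt.2 (Nat.mul_le_mul_left _ h2))

end Pool.Agent.H820R3.AC
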